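import Pool.Agent.W342.AG.Cap1

/-!
Borel sets contain compact sets of large Hausdorff dimension (MP_937c79_an, AG-14).
-/

set_option autoImplicit false

open MeasureTheory Metric Set Filter
open scoped ENNReal NNReal Topology

namespace Pool.Agent.W342.AG
open Pool.Agent.W778.AG

/-- the weight -/
noncomputable def wt {n : ℕ} (s : ℝ) (p : Nd n) : ℝ≥0∞ := ((2 : ℝ≥0∞)⁻¹ ^ p.1) ^ s

lemma two_inv_pow (j : ℕ) : (2 : ℝ≥0∞)⁻¹ ^ j = ENNReal.ofReal ((1 / 2) ^ j) := by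
  rw [ENNReal.ofReal_pow (by norm_num)]
  congr 1
  rw [one_div, ENNReal.ofReal_inv_of_pos (by norm_num)]
  simp

lemma cube_ediam {n : ℕ} (p : Nd n) : ediam (cube p) ≤ (n : ℝ≥0∞) * (2 : ℝ≥0∞)⁻¹ ^ p.1 := by
  refine ediam_le fun x hx y hy => ?_
  rw [edist_dist, two_inv_pow, ← ENNReal.ofReal_natCast, ← ENNReal.ofReal_mul (by positivity)]
  refine ENNReal.ofReal_le_ofReal ?_
  rw [EuclideanSpace.dist_eq]
  have h1 : ∀ i, |x i - y i| ≤ (1 / 2) ^ p.1 := by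
    intro i
    have h1 : ⌊(2 : ℝ) ^ p.1 * x i⌋ = ⌊(2 : ℝ) ^ p.1 * y i⌋ :=
      (congrFun (show dcell p.1 x = p.2 from hx) i).trans
        (congrFun (show dcell p.1 y = p.2 from hy) i).symm
    have h2 := (Int.abs_sub_lt_one_of_floor_eq_floor h1).le
    rw [← mul_sub, abs_mul, abs_of_pos (by positivity : (0 : ℝ) < 2 ^ p.1)] at h2
    rw [one_div, inv_pow, ← one_div, le_div_iff₀ (by positivity), mul_comm]
    exact h2
  calc Real.sqrt (∑ i, dist (x i) (y i) ^ 2) ≤ ∑ i, |x i - y i| := by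
        refine Real.sqrt_le_iff.2 ⟨Finset.sum_nonneg fun i _ => abs_nonneg _, ?_⟩
        simp only [Real.dist_eq]
        exact Finset.sum_sq_le_sq_sum_of_nonneg (fun i _ => abs_nonneg _)
    _ ≤ ∑ i : Fin n, (1 / 2 : ℝ) ^ p.1 := Finset.sum_le_sum fun i _ => h1 i
    _ = _ := by simp

lemma wt_le_cost {n : ℕ} (w : Nd n → ℝ≥0∞) (S : Set (Nd n)) (p : Nd n) (hp : p ∈ S) :
    w p ≤ cost w S := by
  unfold cost
  calc w p = S.indicator w p := by rw [indicator_of_mem hp]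
    _ ≤ _ := ENNReal.le_tsum p

lemma haus_zero {n : ℕ} (s : ℝ) (hs : 0 < s) (E : Set (En n)) (h : ph (wt s) E = 0) :
    μH[s] E = 0 := by
  have hS : ∀ m : ℕ, ∃ S : Set (Nd n), Cov S E ∧ cost (wt s) S < ((2 : ℝ≥0∞)⁻¹ ^ m) ^ s := by
    intro m
    have h1 : ph (wt s) E < ((2 : ℝ≥0∞)⁻¹ ^ m) ^ s := by
      rw [h]
      exact ENNReal.rpow_pos (ENNReal.pow_pos (by simp) _) (ENNReal.pow_ne_top (by simp))
    obtain ⟨C, hC⟩ := iInf_lt_iff.1 h1
    obtain ⟨hC1, hC2⟩ := iInf_lt_iff.1 hC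
    exact ⟨C, hC1, hC2⟩
  choose S hSc hSw using hS
  have hdi : ∀ m, ∀ p ∈ S m, ediam (cube p) ≤ n * (2 : ℝ≥0∞)⁻¹ ^ m := by
    intro m p hp
    refine (cube_ediam p).trans ?_
    refine mul_le_mul_right ?_ _
    have h1 : wt s p ≤ ((2 : ℝ≥0∞)⁻¹ ^ m) ^ s := (wt_le_cost (wt s) (S m) p hp).trans (hSw m).le
    exact (ENNReal.rpow_le_rpow_iff hs).1 h1
  have hlim0 : Tendsto (fun m : ℕ => (2 : ℝ≥0∞)⁻¹ ^ m) atTop (𝓝 0) :=
    ENNReal.tendsto_pow_atTop_nhds_zero_of_lt_one (by norm_num)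
  have hlim : Tendsto (fun m : ℕ => (n : ℝ≥0∞) * (2 : ℝ≥0∞)⁻¹ ^ m) atTop (𝓝 0) := by
    have := ENNReal.Tendsto.const_mul (a := (n : ℝ≥0∞)) hlim0 (Or.inr (by simp))
    rwa [mul_zero] at this
  have hmain := Measure.hausdorffMeasure_le_liminf_tsum (ι := fun m => S m) s E
    (fun m : ℕ => (n : ℝ≥0∞) * (2 : ℝ≥0∞)⁻¹ ^ m) hlim (fun m (p : S m) => cube p.1)
    (Eventually.of_forall fun m p => hdi m p.1 p.2)
    (Eventually.of_forall fun m => by
      intro x hx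
      obtain ⟨p, hp, hxp⟩ := hSc m x hx
      exact mem_iUnion.2 ⟨⟨p, hp⟩, hxp⟩)
  refine le_antisymm (hmain.trans ?_) zero_le
  have hb : ∀ m, ∑' p : S m, ediam (cube p.1) ^ s ≤
      (n : ℝ≥0∞) ^ s * ((2 : ℝ≥0∞)⁻¹ ^ m) ^ s := by
    intro m
    calc ∑' p : S m, ediam (cube p.1) ^ s ≤ ∑' p : S m, (n : ℝ≥0∞) ^ s * wt s p.1 := by
          refine ENNReal.tsum_le_tsum fun p => ?_
          unfold wt
          rw [← ENNReal.mul_rpow_of_nonneg _ _ hs.le]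
          exact ENNReal.rpow_le_rpow (cube_ediam p.1) hs.le
      _ = (n : ℝ≥0∞) ^ s * ∑' p : S m, wt s p.1 := ENNReal.tsum_mul_left
      _ = (n : ℝ≥0∞) ^ s * cost (wt s) (S m) := by
          rw [tsum_subtype (S m) (wt s)]; rfl
      _ ≤ _ := by
          gcongr
          exact (hSw m).le
  have hlim2 : Tendsto (fun m : ℕ => (n : ℝ≥0∞) ^ s * ((2 : ℝ≥0∞)⁻¹ ^ m) ^ s) atTop (𝓝 0) := by
    have h1 := (ENNReal.continuous_rpow_const (y := s)).tendsto (0 : ℝ≥0∞) |>.comp hlim0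
    rw [ENNReal.zero_rpow_of_pos hs] at h1
    have := ENNReal.Tendsto.const_mul (a := (n : ℝ≥0∞) ^ s) h1
      (Or.inr (ENNReal.rpow_ne_top_of_nonneg hs.le (by simp)))
    rwa [mul_zero] at this
  have h3 : Tendsto (fun m : ℕ => ∑' p : S m, ediam (cube p.1) ^ s) atTop (𝓝 0) :=
    tendsto_of_tendsto_of_tendsto_of_le_of_le tendsto_const_nhds hlim2 (fun m => zero_le) hb
  exact h3.liminf_eq.le

/-- coverings by small balls -/
lemma ball_cover {n : ℕ} (s : ℝ) (hs : 0 < s) (K : Set (En n)) (h : μH[s] K = 0) (ε : ℝ≥0∞)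
    (hε : ε ≠ 0) : ∃ (x : ℕ → En n) (r : ℕ → ℝ), (∀ i, 0 < r i) ∧ (∀ i, r i ≤ 1) ∧
      K ⊆ ⋃ i, ball (x i) (r i) ∧ ∑' i, ENNReal.ofReal (r i) ^ s ≤ ε := by
  rw [Measure.hausdorffMeasure_apply] at h
  have h1 := h.le
  simp only [iSup_le_iff] at h1
  have h2 := h1 2⁻¹ (by simp)
  have hε2 : (0 : ℝ≥0∞) < ε / 2 := ENNReal.half_pos hε
  have h3 := lt_of_le_of_lt h2 hε2
  obtain ⟨t, ht⟩ := iInf_lt_iff.1 h3
  obtain ⟨ht1, ht⟩ := iInf_lt_iff.1 ht
  obtain ⟨ht2, ht3⟩ := iInf_lt_iff.1 ht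
  obtain ⟨ε', hε'pos, hε'sum⟩ := ENNReal.exists_pos_sum_of_countable (ε := ε / 2) hε2.ne' ℕ
  -- enlarge
  have key : ∀ (d : ℝ≥0∞) (e : ℝ≥0), d ≤ 2⁻¹ → 0 < e → ∃ r : ℝ, 0 < r ∧ r ≤ 1 ∧
      d < ENNReal.ofReal r ∧ ENNReal.ofReal r ^ s ≤ d ^ s + e := by
    intro d e hd he
    have hd1 : d < 1 := lt_of_le_of_lt hd (by norm_num)
    have hdt : d ≠ ∞ := ne_top_of_lt hd1
    have hc : Tendsto (fun r : ℝ≥0∞ => r ^ s) (𝓝[>] d) (𝓝 (d ^ s)) :=
      ((ENNReal.continuous_rpow_const (y := s)).tendsto d).mono_left nhdsWithin_le_nhds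
    have h4 : d ^ s < d ^ s + e := by
      refine ENNReal.lt_add_right (ENNReal.rpow_ne_top_of_nonneg hs.le hdt) ?_
      exact_mod_cast he.ne'
    have h5 := hc.eventually_lt_const h4
    have h6 : ∀ᶠ r in 𝓝[>] d, r ∈ Ioo d 1 := Ioo_mem_nhdsGT hd1
    have hnb : (𝓝[>] d).NeBot := nhdsGT_neBot_of_exists_gt ⟨1, hd1⟩
    obtain ⟨r, hr1, hr2⟩ := (h5.and h6).exists
    have hrt : r ≠ ∞ := ne_top_of_lt hr2.2
    refine ⟨r.toReal, ENNReal.toReal_pos (lt_of_le_of_lt zero_le hr2.1).ne' hrt, ?_, ?_, ?_⟩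
    · exact ENNReal.toReal_le_of_le_ofReal (by norm_num) (by simpa using hr2.2.le)
    · rw [ENNReal.ofReal_toReal hrt]; exact hr2.1
    · rw [ENNReal.ofReal_toReal hrt]; exact hr1.le
  have hx : ∀ i, ∃ (x : En n) (r : ℝ), 0 < r ∧ r ≤ 1 ∧ t i ⊆ ball x r ∧
      ENNReal.ofReal r ^ s ≤ (⨆ _ : (t i).Nonempty, ediam (t i) ^ s) + ε' i := by
    intro i
    rcases (t i).eq_empty_or_nonempty with hemp | hne
    · obtain ⟨r, hr0, hr1, _, hr3⟩ := key 0 (ε' i) zero_le (hε'pos i)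
      refine ⟨0, r, hr0, hr1, by rw [hemp]; exact empty_subset _, ?_⟩
      rw [ENNReal.zero_rpow_of_pos hs, zero_add] at hr3
      exact hr3.trans le_add_self
    · obtain ⟨r, hr0, hr1, hr2, hr3⟩ := key (ediam (t i)) (ε' i) (ht2 i) (hε'pos i)
      obtain ⟨x, hx⟩ := hne
      refine ⟨x, r, hr0, hr1, ?_, ?_⟩
      · intro y hy
        rw [mem_ball, ← ENNReal.ofReal_lt_ofReal_iff hr0, ← edist_dist]
        exact lt_of_le_of_lt (edist_le_ediam_of_mem hy hx) hr2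
      · have : (⨆ _ : (t i).Nonempty, ediam (t i) ^ s) = ediam (t i) ^ s := by
          simp [show (t i).Nonempty from ⟨x, hx⟩]
        rw [this]
        exact hr3
  choose x r hr0 hr1 hr2 hr3 using hx
  refine ⟨x, r, hr0, hr1, ht1.trans (iUnion_mono hr2), ?_⟩
  calc ∑' i, ENNReal.ofReal (r i) ^ s
      ≤ ∑' i, ((⨆ _ : (t i).Nonempty, ediam (t i) ^ s) + (ε' i : ℝ≥0∞)) :=
        ENNReal.tsum_le_tsum hr3
    _ = (∑' i, ⨆ _ : (t i).Nonempty, ediam (t i) ^ s) + ∑' i, (ε' i : ℝ≥0∞) := ENNReal.tsum_add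
    _ ≤ ε / 2 + ε / 2 := add_le_add ht3.le hε'sum.le
    _ = ε := ENNReal.add_halves ε

/-- a ball is covered by few cubes -/
lemma ball_nodes {n : ℕ} (s : ℝ) (hs : 0 < s) (x : En n) (r : ℝ) (hr : 0 < r) (hr1 : r ≤ 1) :
    ∃ S : Set (Nd n), Cov S (ball x r) ∧
      cost (wt s) S ≤ 3 ^ n * (2 ^ s * ENNReal.ofReal r ^ s) := by
  classical
  obtain ⟨j, hj1, hj2⟩ := exists_nat_pow_near_of_lt_one (x := r) (y := 1 / 2) hr hr1
    (by norm_num) (by norm_num)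
  set F : Finset (Nd n) := (Fintype.piFinset (fun i => Finset.Icc (⌊(2 : ℝ) ^ j * x i⌋ - 1)
      (⌊(2 : ℝ) ^ j * x i⌋ + 1))).image (fun z => (j, z)) with hF
  refine ⟨F, ?_, ?_⟩
  · intro y hy
    refine ⟨(j, dcell j y), ?_, rfl⟩
    rw [hF, Finset.coe_image]
    refine ⟨dcell j y, ?_, rfl⟩
    rw [Finset.mem_coe, Fintype.mem_piFinset]
    intro i
    rw [Finset.mem_Icc]
    have h1 : |y i - x i| < r := by
      have h2 : ‖(y - x) i‖ ≤ ‖y - x‖ := PiLp.norm_apply_le (y - x) i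
      rw [mem_ball, dist_eq_norm] at hy
      have h3 := lt_of_le_of_lt h2 hy
      simpa using h3
    have h4 : |(2 : ℝ) ^ j * y i - 2 ^ j * x i| < 1 := by
      rw [← mul_sub, abs_mul, abs_of_pos (by positivity : (0 : ℝ) < 2 ^ j)]
      calc (2 : ℝ) ^ j * |y i - x i| < 2 ^ j * r := by gcongr
        _ ≤ 2 ^ j * (1 / 2) ^ j := by gcongr
        _ = 1 := by rw [← mul_pow]; norm_num
    rw [abs_lt] at h4
    unfold dcell
    constructor
    · have : (⌊(2 : ℝ) ^ j * x i⌋ : ℝ) ≤ 2 ^ j * x i := Int.floor_le _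
      rw [Int.le_floor]; push_cast; linarith [h4.1]
    · have : 2 ^ j * x i < (⌊(2 : ℝ) ^ j * x i⌋ : ℝ) + 1 := Int.lt_floor_add_one _
      rw [← Int.lt_add_one_iff, Int.floor_lt]; push_cast; linarith [h4.2]
  · have hw : ∀ p ∈ F, wt s p ≤ 2 ^ s * ENNReal.ofReal r ^ s := by
      intro p hp
      rw [hF, Finset.mem_image] at hp
      obtain ⟨z, _, rfl⟩ := hp
      unfold wt
      rw [← ENNReal.mul_rpow_of_nonneg _ _ hs.le]
      refine ENNReal.rpow_le_rpow ?_ hs.le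
      show (2 : ℝ≥0∞)⁻¹ ^ j ≤ _
      rw [two_inv_pow]
      have : (2 : ℝ≥0∞) = ENNReal.ofReal 2 := by simp
      rw [this, ← ENNReal.ofReal_mul (by norm_num)]
      refine ENNReal.ofReal_le_ofReal ?_
      rw [pow_succ] at hj1
      linarith
    have hcard : (F.card : ℝ≥0∞) ≤ 3 ^ n := by
      have h1 : F.card ≤ 3 ^ n := by
        rw [hF]
        refine Finset.card_image_le.trans ?_
        rw [Fintype.card_piFinset]
        have : ∀ i : Fin n, (Finset.Icc (⌊(2 : ℝ) ^ j * x i⌋ - 1)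
            (⌊(2 : ℝ) ^ j * x i⌋ + 1)).card = 3 := by
          intro i
          rw [Int.card_Icc]
          omega
        simp only [this, Finset.prod_const, Finset.card_univ, Fintype.card_fin, le_refl]
      exact_mod_cast h1
    calc cost (wt s) (F : Set (Nd n)) = ∑ p ∈ F, wt s p := by
          unfold cost
          rw [← tsum_subtype]
          exact Finset.tsum_subtype F (wt s)
      _ ≤ ∑ p ∈ F, (2 ^ s * ENNReal.ofReal r ^ s) := Finset.sum_le_sum hw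
      _ = F.card * (2 ^ s * ENNReal.ofReal r ^ s) := by rw [Finset.sum_const, nsmul_eq_mul]
      _ ≤ _ := by gcongr

lemma cost_iUnion {n : ℕ} (w : Nd n → ℝ≥0∞) (S : ℕ → Set (Nd n)) :
    cost w (⋃ i, S i) ≤ ∑' i, cost w (S i) := by
  classical
  unfold cost
  rw [ENNReal.tsum_comm]
  refine ENNReal.tsum_le_tsum fun p => ?_
  by_cases hp : p ∈ ⋃ i, S i
  · rw [indicator_of_mem hp]
    obtain ⟨i, hi⟩ := mem_iUnion.1 hp
    calc w p = (S i).indicator w p := by rw [indicator_of_mem hi]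
      _ ≤ _ := ENNReal.le_tsum i
  · rw [indicator_of_notMem hp]; exact zero_le

lemma tail_in {X : Type*} [TopologicalSpace X] (f : (ℕ → ℕ) → X) (hf : Continuous f)
    (N : ℕ → ℕ) (U : Set X) (hU : IsOpen U) (hK : f '' {ν | ∀ i, ν i ≤ N i} ⊆ U) :
    ∃ k, f '' {ν | ∀ i < k, ν i ≤ N i} ⊆ U := by
  by_contra hcon
  push Not at hcon
  have h1 : ∀ k, ∃ ν : ℕ → ℕ, (∀ i < k, ν i ≤ N i) ∧ f ν ∉ U := by
    intro k
    obtain ⟨y, ⟨ν, hν, rfl⟩, hy⟩ := not_subset.1 (hcon k)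
    exact ⟨ν, hν, hy⟩
  choose ν hν1 hν2 using h1
  have hc : IsCompact {ν : ℕ → ℕ | ∀ i, ν i ≤ N i} := by
    have : {ν : ℕ → ℕ | ∀ i, ν i ≤ N i} = pi univ (fun i => Iic (N i)) := by
      ext ν; simp only [mem_ofPred_eq, Set.mem_pi, mem_univ, true_implies, mem_Iic]
    rw [this]
    exact isCompact_univ_pi fun i => (finite_Iic (N i)).isCompact
  set ν' : ℕ → ℕ → ℕ := fun k i => if i < k then ν k i else 0 with hν'
  have hmem : ∀ k, ν' k ∈ {ν : ℕ → ℕ | ∀ i, ν i ≤ N i} := by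
    intro k i
    simp only [hν']
    split_ifs with h
    · exact hν1 k i h
    · exact Nat.zero_le _
  obtain ⟨a, ha, φ, hφ, hlim⟩ := hc.tendsto_subseq hmem
  have hlim2 : Tendsto (fun k => ν (φ k)) atTop (𝓝 a) := by
    rw [tendsto_pi_nhds] at hlim ⊢
    intro i
    refine (hlim i).congr' ?_
    filter_upwards [eventually_gt_atTop i] with k hk
    have : i < φ k := lt_of_lt_of_le hk (hφ.id_le k)
    simp [hν', this]
  have hfa : f a ∈ U := hK ⟨a, ha, rfl⟩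
  have := (hf.tendsto a).comp hlim2 |>.eventually (hU.mem_nhds hfa)
  obtain ⟨k, hk⟩ := this.exists
  exact hν2 _ hk

theorem cap : S_CAP := by
  classical
  intro n E hE s hs hdim
  obtain ⟨s', hs1, hs2⟩ := ENNReal.lt_iff_exists_nnreal_btwn.1 hdim
  have hs' : s < (s' : ℝ) := by
    rwa [ENNReal.ofReal_lt_coe_iff hs] at hs1
  have hs'0 : 0 < (s' : ℝ) := lt_of_le_of_lt hs hs'
  have hH : μH[(s' : ℝ)] E = ∞ := hausdorffMeasure_of_lt_dimH hs2
  have hph : ph (wt (s' : ℝ)) E ≠ 0 := by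
    intro h0
    rw [haus_zero _ hs'0 E h0] at hH
    exact ENNReal.zero_ne_top hH
  have hEne : E.Nonempty := by
    rw [nonempty_iff_ne_empty]
    intro h0
    rw [h0, measure_empty] at hH
    exact ENNReal.zero_ne_top hH
  have hEa := hE.analyticSet
  rw [AnalyticSet] at hEa
  rcases hEa with hemp | ⟨f, hf, hfE⟩
  · exact absurd hemp hEne.ne_empty
  obtain ⟨c, hc0, hc1⟩ := exists_between (pos_iff_ne_zero.2 hph)
  -- choice of the bounds
  have hstep : ∀ (k : ℕ) (B : {B : Set (ℕ → ℕ) // c < ph (wt (n := n) (s' : ℝ)) (f '' B)}),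
      ∃ m : ℕ, c < ph (wt (n := n) (s' : ℝ)) (f '' (B.1 ∩ {ν | ν k ≤ m})) := by
    intro k B
    have h1 : f '' B.1 = ⋃ m : ℕ, f '' (B.1 ∩ {ν | ν k ≤ m}) := by
      rw [← image_iUnion, ← inter_iUnion]
      congr 1
      ext ν
      simp only [mem_inter_iff, mem_iUnion, mem_ofPred_eq]
      exact ⟨fun h => ⟨h, ν k, le_rfl⟩, fun h => h.1⟩
    have h2 := B.2
    rw [h1] at h2
    have h3 := lt_of_lt_of_le h2 (increasing (wt (n := n) (s' : ℝ))
      (fun m : ℕ => f '' (B.1 ∩ {ν | ν k ≤ m}))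
      (fun m m' hmm => image_mono (inter_subset_inter_right _
        (fun ν (hν : ν k ≤ m) => le_trans hν hmm))))
    exact lt_iSup_iff.1 h3
  choose m hm using hstep
  have h0 : c < ph (wt (n := n) (s' : ℝ)) (f '' univ) := by
    rw [image_univ, hfE]; exact hc1
  let Bs : ℕ → {B : Set (ℕ → ℕ) // c < ph (wt (n := n) (s' : ℝ)) (f '' B)} := fun k =>
    Nat.rec ⟨univ, h0⟩ (fun k B => ⟨B.1 ∩ {ν | ν k ≤ m k B}, hm k B⟩) k
  have hBs0 : (Bs 0).1 = univ := rfl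
  have hBss : ∀ k, (Bs (k + 1)).1 = (Bs k).1 ∩ {ν | ν k ≤ m k (Bs k)} := fun k => rfl
  set N : ℕ → ℕ := fun k => m k (Bs k) with hN
  have hBs : ∀ k, (Bs k).1 = {ν | ∀ i < k, ν i ≤ N i} := by
    intro k
    induction k with
    | zero => rw [hBs0]; ext ν; simp
    | succ k ih =>
      rw [hBss, ih]
      ext ν
      constructor
      · rintro ⟨h1, h2⟩ i hi
        rcases Nat.lt_succ_iff_lt_or_eq.1 hi with h | h
        · exact h1 i h
        · rw [h]; exact h2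
      · intro h
        exact ⟨fun i hi => h i (by omega), h k (by omega)⟩
  set K : Set (En n) := f '' {ν | ∀ i, ν i ≤ N i} with hKd
  have hKc : IsCompact K := by
    refine IsCompact.image ?_ hf
    have : {ν : ℕ → ℕ | ∀ i, ν i ≤ N i} = pi univ (fun i => Iic (N i)) := by
      ext ν; simp only [mem_ofPred_eq, Set.mem_pi, mem_univ, true_implies, mem_Iic]
    rw [this]
    exact isCompact_univ_pi fun i => (finite_Iic (N i)).isCompact
  refine ⟨K, ?_, hKc, ?_⟩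
  · rw [← hfE]; exact image_subset_range _ _
  · refine lt_of_lt_of_le hs1 (le_dimH_of_hausdorffMeasure_ne_zero ?_)
    intro hK0
    -- choose a small ε
    set B0 : ℝ≥0∞ := 3 ^ n * 2 ^ (s' : ℝ) with hB0
    have hB0t : B0 ≠ ∞ := ENNReal.mul_ne_top (ENNReal.pow_ne_top (by simp))
      (ENNReal.rpow_ne_top_of_nonneg hs'0.le (by simp))
    have hB00 : B0 ≠ 0 := mul_ne_zero (pow_ne_zero _ (by simp))
      (ENNReal.rpow_pos (by simp) (by simp)).ne'
    obtain ⟨x, r, hr0, hr1, hcov, hsum⟩ := ball_cover (s' : ℝ) hs'0 K hK0 (c / B0)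
      (ENNReal.div_pos hc0.ne' hB0t).ne'
    obtain ⟨k, hk⟩ := tail_in f hf N (⋃ i, ball (x i) (r i)) (isOpen_iUnion fun i => isOpen_ball)
      hcov
    choose S hSc hSw using fun i => ball_nodes (s' : ℝ) hs'0 (x i) (r i) (hr0 i) (hr1 i)
    have h1 : Cov (⋃ i, S i) (f '' (Bs k).1) := by
      rw [hBs k]
      intro y hy
      obtain ⟨i, hi⟩ := mem_iUnion.1 (hk hy)
      obtain ⟨p, hp, hyp⟩ := hSc i y hi
      exact ⟨p, mem_iUnion.2 ⟨i, hp⟩, hyp⟩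
    have h2 : c < c := by
      calc c < ph (wt (n := n) (s' : ℝ)) (f '' (Bs k).1) := (Bs k).2
        _ ≤ cost (wt (s' : ℝ)) (⋃ i, S i) := ph_le _ h1
        _ ≤ ∑' i, cost (wt (s' : ℝ)) (S i) := cost_iUnion _ _
        _ ≤ ∑' i, 3 ^ n * (2 ^ (s' : ℝ) * ENNReal.ofReal (r i) ^ (s' : ℝ)) :=
            ENNReal.tsum_le_tsum hSw
        _ = B0 * ∑' i, ENNReal.ofReal (r i) ^ (s' : ℝ) := by
            rw [← ENNReal.tsum_mul_left]
            refine tsum_congr fun i => ?_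
            rw [hB0]; ring
        _ ≤ B0 * (c / B0) := by gcongr
        _ = c := ENNReal.mul_div_cancel hB00 hB0t
    exact lt_irrefl _ h2


end Pool.Agent.W342.AG
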