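import Pool.Agent.W342.AG.Core

/-!
Pair correlation, subtask AG-8 for the problem MP_937c79_an.
-/

set_option autoImplicit false

open MeasureTheory Metric Set
open scoped ENNReal RealInnerProductSpace

namespace Pool.Agent.W342.AG
open Pool.Agent.W778.AG

theorem pair : S_PAIR := by
  intro n κ R ν hn hκ hκ1 hR hR1 hsmall hfin hsupp hgr hhalf
  haveI := hfin
  set m : ℝ := ν.real univ with hm
  have hmu : ν univ = ENNReal.ofReal m := by
    rw [hm, measureReal_def, ENNReal.ofReal_toReal (measure_ne_top _ _)]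
  have hmh : 1 / 2 ≤ m := by
    have h1 : ENNReal.ofReal (1 / 2) ≤ ENNReal.ofReal m := by
      rw [← hmu]
      exact hhalf.trans (measure_mono (subset_univ _))
    exact (ENNReal.ofReal_le_ofReal_iff (by positivity)).1 h1
  set V : ℝ := (volume (ball (0 : En n) 1)).toReal with hV
  have hVpos : 0 < V := by
    rw [hV]
    exact ENNReal.toReal_pos (measure_ball_pos _ _ one_pos).ne' measure_ball_lt_top.ne
  have hball : ∀ r : ℝ, 0 < r → volume (ball (0 : En n) r) = ENNReal.ofReal (r ^ n * V) := by
    intro r hr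
    rw [Measure.addHaar_ball_of_pos volume (0 : En n) hr]
    rw [ENNReal.ofReal_mul (by positivity), hV, ENNReal.ofReal_toReal measure_ball_lt_top.ne]
    simp
  have hcore := core ν 1 R hsupp
  set t : ℝ := (R / (1 + R)) ^ n with ht
  have htpos : 0 < t := by positivity
  set b : ℝ := R ^ n * V with hb
  set b' : ℝ := (1 + R) ^ n * V with hb'
  have hbpos : 0 < b := by positivity
  have hb'pos : 0 < b' := by positivity
  have hbb : b = t * b' := by
    rw [hb, hb', ht, div_pow]
    field_simp
  rw [hball R hR, hball (1 + R) (by positivity), hmu] at hcore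
  rw [hball R hR]
  set X : ℝ≥0∞ := ∫⁻ x, ∫⁻ y in (ball x (R / 10))ᶜ, volume (ball x R ∩ ball y R) ∂ν ∂ν with hX
  have hY : ∀ x, ∫⁻ y in ball x (R / 10), volume (ball x R ∩ ball y R) ∂ν ≤
      ENNReal.ofReal (b * (1 / 4 * t)) := by
    intro x
    calc ∫⁻ y in ball x (R / 10), volume (ball x R ∩ ball y R) ∂ν
        ≤ ∫⁻ y in ball x (R / 10), ENNReal.ofReal b ∂ν := by
          refine lintegral_mono fun y => ?_
          refine (measure_mono inter_subset_left).trans ?_
          rw [Measure.addHaar_ball_center volume x R, hball R hR]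
      _ = ENNReal.ofReal b * ν (ball x (R / 10)) := by
          rw [lintegral_const, Measure.restrict_apply_univ]
      _ ≤ ENNReal.ofReal b * ENNReal.ofReal (1 / 4 * t) := by
          gcongr
          refine (measure_mono ball_subset_closedBall).trans ((hgr x (R / 10) (by positivity)).trans ?_)
          exact ENNReal.ofReal_le_ofReal hsmall
      _ = _ := by rw [ENNReal.ofReal_mul hbpos.le]
  have hsplit : ∫⁻ x, ∫⁻ y, volume (ball x R ∩ ball y R) ∂ν ∂ν ≤
      X + ENNReal.ofReal (b * (1 / 4 * t)) * ENNReal.ofReal m := by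
    calc ∫⁻ x, ∫⁻ y, volume (ball x R ∩ ball y R) ∂ν ∂ν
        = ∫⁻ x, ((∫⁻ y in (ball x (R / 10))ᶜ, volume (ball x R ∩ ball y R) ∂ν) +
            ∫⁻ y in ball x (R / 10), volume (ball x R ∩ ball y R) ∂ν) ∂ν := by
          refine lintegral_congr fun x => ?_
          rw [add_comm, lintegral_add_compl _ measurableSet_ball]
      _ ≤ ∫⁻ x, ((∫⁻ y in (ball x (R / 10))ᶜ, volume (ball x R ∩ ball y R) ∂ν) +
            ENNReal.ofReal (b * (1 / 4 * t))) ∂ν := by
          refine lintegral_mono fun x => ?_
          gcongr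
          exact hY x
      _ = _ := by
          rw [lintegral_add_right _ measurable_const, lintegral_const, hmu]
  by_cases hXt : X = ∞
  · rw [hXt]; exact le_top
  · have hX' : X = ENNReal.ofReal X.toReal := (ENNReal.ofReal_toReal hXt).symm
    set X' : ℝ := X.toReal with hX'd
    have hX'0 : 0 ≤ X' := ENNReal.toReal_nonneg
    rw [hX', ← ENNReal.ofReal_mul (by positivity), ← ENNReal.ofReal_add hX'0 (by positivity)]
      at hsplit
    have h5 : (ENNReal.ofReal m * ENNReal.ofReal b) ^ 2 ≤ ENNReal.ofReal b' *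
        ENNReal.ofReal (X' + b * (1 / 4 * t) * m) := by
      refine hcore.trans ?_
      gcongr
    rw [← ENNReal.ofReal_mul (by positivity), ← ENNReal.ofReal_pow (by positivity),
      ← ENNReal.ofReal_mul (by positivity), ENNReal.ofReal_le_ofReal_iff (by positivity)] at h5
    rw [hX', ← ENNReal.ofReal_mul (by positivity)]
    refine ENNReal.ofReal_le_ofReal ?_
    have h6 : b' * (b * (1 / 4 * t) * m) ≤ (m * b) ^ 2 / 2 := by
      have : b' * (b * (1 / 4 * t) * m) = b * b * m / 4 := by
        rw [hbb]; ring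
      rw [this]
      nlinarith [mul_pos hbpos hbpos, mul_nonneg (mul_pos hbpos hbpos).le (by linarith : 0 ≤ m - 1/2),
        mul_nonneg (mul_nonneg (mul_pos hbpos hbpos).le (by linarith : 0 ≤ m))
          (by linarith : 0 ≤ m - 1/2)]
    have h7 : (m * b) ^ 2 / 2 ≤ b' * X' := by nlinarith
    have h8 : b' * (1 / 2 * m ^ 2 * t * b) ≤ b' * X' := by
      refine le_trans (le_of_eq ?_) h7
      rw [hbb]; ring
    exact le_of_mul_le_mul_left h8 hb'pos


end Pool.Agent.W342.AG
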