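import Pool.Agent.W342.AG.Fam

/-!
Right angles from the slicing lemma (MP_937c79_an, AG-17).
-/

set_option autoImplicit false

open MeasureTheory Metric Set Filter
open scoped ENNReal RealInnerProductSpace Topology

namespace Pool.Agent.W342.AG
open Pool.Agent.W778.AG

/-- the family of projections -/
noncomputable def qf {n a b : ℕ} (e1 : Fin a → Fin n) (e2 : Fin b → Fin n)
    (M : Fin b → Fin a → ℝ) : En n →L[ℝ] En b :=
  LinearMap.toContinuousLinearMap
    { toFun := fun w => WithLp.toLp 2 (fun i => w (e2 i) - ∑ l, M i l * w (e1 l))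
      map_add' := by
        intro w w'
        ext i
        simp [mul_add, Finset.sum_add_distrib]
        ring
      map_smul' := by
        intro c w
        ext i
        simp [Finset.mul_sum, mul_sub]
        refine Finset.sum_congr rfl fun l _ => ?_
        ring }

lemma qf_apply {n a b : ℕ} (e1 : Fin a → Fin n) (e2 : Fin b → Fin n)
    (M : Fin b → Fin a → ℝ) (w : En n) (i : Fin b) :
    qf e1 e2 M w i = w (e2 i) - ∑ l, M i l * w (e1 l) := rfl

lemma fam_ae (hS : S_SLICE) {n a b : ℕ} (e1 : Fin a → Fin n) (e2 : Fin b → Fin n)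
    (hsum : ∀ f : Fin n → ℝ, ∑ i, f i = ∑ j, f (e1 j) + ∑ i, f (e2 i))
    (C' s : ℝ) (ν : Measure (En n)) [IsFiniteMeasure ν] (K : Set (En n)) (hK : IsCompact K)
    (hνK : ν Kᶜ = 0) (hms : (b : ℝ) < s) (hC' : 0 < C')
    (hgr : ∀ x, ∀ r : ℝ, 0 < r → ν (closedBall x r) ≤ ENNReal.ofReal (C' * r ^ s)) :
    ∀ᵐ M ∂(volume.restrict {M : Fin b → Fin a → ℝ | ∀ i l, |M i l| ≤ 1}),
      ∀ᵐ y ∂ν, ∃ x ∈ K, x ≠ y ∧ qf e1 e2 M x = qf e1 e2 M y := by
  have hbox : MeasurableSet {M : Fin b → Fin a → ℝ | ∀ i l, |M i l| ≤ 1} := by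
    have : {M : Fin b → Fin a → ℝ | ∀ i l, |M i l| ≤ 1} = ⋂ i, ⋂ l, {M | |M i l| ≤ 1} := by
      ext M; simp
    rw [this]
    exact MeasurableSet.iInter fun i => MeasurableSet.iInter fun l =>
      measurableSet_le (by fun_prop) measurable_const
  refine slice_ae hS _ (fun M => qf e1 e2 M) ((2 ^ a * (4 * (a + 1) * (b + 1))) ^ b) C' s ν K
    ?_ ?_ hK hνK hms (by positivity) hC' hgr
  · have h1 : Measurable (fun z : (Fin b → Fin a → ℝ) × En n =>
        (fun i => z.2 (e2 i) - ∑ l, z.1 i l * z.2 (e1 l) : Fin b → ℝ)) := by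
      refine measurable_pi_lambda _ fun i => ?_
      fun_prop
    exact (WithLp.measurable_toLp 2 _).comp h1
  · intro w hw δ hδ
    rw [Measure.restrict_apply' hbox]
    refine le_trans (measure_mono ?_) (fam_bound (fun j => w (e1 j)) (fun i => w (e2 i)) ‖w‖ δ
      (norm_pos_iff.2 hw) ?_ hδ)
    · rintro M ⟨h1, h2⟩
      refine ⟨h2, fun i => ?_⟩
      have h3 := PiLp.norm_apply_le (qf e1 e2 M w) i
      rw [qf_apply, Real.norm_eq_abs] at h3
      exact h3.trans h1
    · rw [← hsum (fun i => |w i|)]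
      have := EuclideanSpace.norm_eq w
      rw [this]
      refine Real.sqrt_le_iff.2 ⟨Finset.sum_nonneg fun i _ => abs_nonneg _, ?_⟩
      simp only [Real.norm_eq_abs]
      exact Finset.sum_sq_le_sq_sum_of_nonneg (fun i _ => abs_nonneg _)

theorem right (hS : S_SLICE) : S_RIGHT := by
  intro n hn K hK hdim
  obtain ⟨ν, hprob, hνK, C', hC', hgr⟩ := Pool.Agent.H744R2.Falc.frostman_dimH n K hK
    (3 / 4 * (n : ℝ)) (by positivity) hdim
  obtain ⟨a, b, hab, hb, ha⟩ : ∃ a b : ℕ, n = a + b ∧ (b : ℝ) < 3 / 4 * (n : ℝ) ∧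
      (a : ℝ) < 3 / 4 * (n : ℝ) := by
    refine ⟨n / 2, n - n / 2, by omega, ?_, ?_⟩
    · have h1 : 4 * (n - n / 2) < 3 * n := by omega
      have h2 : (4 * ((n - n / 2 : ℕ) : ℝ)) < 3 * (n : ℝ) := by exact_mod_cast h1
      linarith
    · have h1 : 4 * (n / 2) < 3 * n := by omega
      have h2 : (4 * ((n / 2 : ℕ) : ℝ)) < 3 * (n : ℝ) := by exact_mod_cast h1
      linarith
  subst hab
  set e1 : Fin a → Fin (a + b) := Fin.castAdd b with he1
  set e2 : Fin b → Fin (a + b) := Fin.natAdd a with he2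
  have hsum : ∀ f : Fin (a + b) → ℝ, ∑ i, f i = ∑ j, f (e1 j) + ∑ i, f (e2 i) :=
    fun f => Fin.sum_univ_add f
  have hA := fam_ae hS e1 e2 hsum C' _ ν K hK hνK hb hC' hgr
  have hB := fam_ae hS e2 e1 (fun f => by rw [hsum, add_comm]) C' _ ν K hK hνK ha hC' hgr
  set box1 : Set (Fin b → Fin a → ℝ) := {M | ∀ i l, |M i l| ≤ 1} with hbox1
  set box2 : Set (Fin a → Fin b → ℝ) := {M | ∀ i l, |M i l| ≤ 1} with hbox2
  have hbox1m : MeasurableSet box1 := by
    have : box1 = ⋂ i, ⋂ l, {M | |M i l| ≤ 1} := by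
      ext M; simp [hbox1]
    rw [this]
    exact MeasurableSet.iInter fun i => MeasurableSet.iInter fun l =>
      measurableSet_le (by fun_prop) measurable_const
  have hbox2m : MeasurableSet box2 := by
    have : box2 = ⋂ i, ⋂ l, {M | |M i l| ≤ 1} := by
      ext M; simp [hbox2]
    rw [this]
    exact MeasurableSet.iInter fun i => MeasurableSet.iInter fun l =>
      measurableSet_le (by fun_prop) measurable_const
  rw [ae_restrict_iff' hbox1m] at hA
  rw [ae_restrict_iff' hbox2m] at hB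
  let τ0 : (Fin b → Fin a → ℝ) ≃ₗ[ℝ] (Fin a → Fin b → ℝ) :=
    { toFun := fun M j i => - M i j
      invFun := fun M i j => - M j i
      map_add' := by intro M M'; funext j i; simp; ring
      map_smul' := by intro c M; funext j i; simp
      left_inv := by intro M; funext j i; simp
      right_inv := by intro M; funext j i; simp }
  let τ : (Fin b → Fin a → ℝ) ≃L[ℝ] (Fin a → Fin b → ℝ) := τ0.toContinuousLinearEquiv
  have hτ : ∀ M j i, τ M j i = - M i j := fun M j i => rfl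
  have hτm : Measurable τ := τ.continuous.measurable
  have hmap : (volume.map τ : Measure (Fin a → Fin b → ℝ)) ≪ volume := by
    have h01 : (volume : Measure (Fin b → Fin a → ℝ)).IsAddHaarMeasure :=
      Measure.pi.isAddHaarMeasure _
    have h02 : (volume : Measure (Fin a → Fin b → ℝ)).IsAddHaarMeasure :=
      Measure.pi.isAddHaarMeasure _
    have h1 : (volume.map τ : Measure (Fin a → Fin b → ℝ)).IsAddHaarMeasure :=
      τ.isAddHaarMeasure_map volume
    have h2 : SigmaFinite (volume.map τ : Measure (Fin a → Fin b → ℝ)) :=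
      MeasureTheory.Measure.IsAddHaarMeasure.sigmaFinite _
    exact Measure.absolutelyContinuous_isAddHaarMeasure _ _
  have hB' : ∀ᵐ M : Fin b → Fin a → ℝ, τ M ∈ box2 → ∀ᵐ y ∂ν, ∃ x ∈ K, x ≠ y ∧
      qf e2 e1 (τ M) x = qf e2 e1 (τ M) y :=
    ae_of_ae_map hτm.aemeasurable (hmap.ae_le hB)
  have hvol : (volume : Measure (Fin b → Fin a → ℝ)).restrict box1 ≠ 0 := by
    rw [Ne, Measure.restrict_eq_zero, hbox1, box_vol]
    exact (ENNReal.ofReal_pos.2 (by positivity)).ne'
  have hAB : ∀ᵐ M ∂((volume : Measure (Fin b → Fin a → ℝ)).restrict box1),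
      (∀ᵐ y ∂ν, ∃ x ∈ K, x ≠ y ∧ qf e1 e2 M x = qf e1 e2 M y) ∧
      (∀ᵐ y ∂ν, ∃ x ∈ K, x ≠ y ∧ qf e2 e1 (τ M) x = qf e2 e1 (τ M) y) := by
    rw [ae_restrict_iff' hbox1m]
    filter_upwards [hA, hB'] with M h1 h2 hM
    refine ⟨h1 hM, h2 ?_⟩
    intro j i
    rw [hτ, abs_neg]
    exact hM i j
  have hne : (ae ((volume : Measure (Fin b → Fin a → ℝ)).restrict box1)).NeBot :=
    ae_neBot.2 hvol
  obtain ⟨M, hM1, hM2⟩ := hAB.exists
  have hK' : ∀ᵐ y ∂ν, y ∈ K := by
    rw [ae_iff]; exact hνK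
  obtain ⟨y, ⟨⟨x, hxK, hxy, hx⟩, ⟨z, hzK, hzy, hz⟩⟩, hyK⟩ := ((hM1.and hM2).and hK').exists
  have hx' : ∀ i, (x - y) (e2 i) = ∑ l, M i l * (x - y) (e1 l) := by
    intro i
    have h1 : qf e1 e2 M (x - y) i = 0 := by rw [map_sub, hx, sub_self]; rfl
    rw [qf_apply] at h1
    linarith
  have hz' : ∀ j, (z - y) (e1 j) = ∑ i, - M i j * (z - y) (e2 i) := by
    intro j
    have h1 : qf e2 e1 (τ M) (z - y) j = 0 := by rw [map_sub, hz, sub_self]; rfl
    rw [qf_apply] at h1
    simp only [hτ] at h1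
    linarith
  have hinner : ⟪x - y, z - y⟫ = 0 := by
    rw [EuclideanSpace.inner_eq_star_dotProduct]
    show ∑ i, (z - y) i * (x - y) i = 0
    rw [hsum (fun i => (z - y) i * (x - y) i)]
    simp only [hx', hz', Finset.sum_mul, Finset.mul_sum]
    rw [Finset.sum_comm, ← Finset.sum_add_distrib]
    refine Finset.sum_eq_zero fun i _ => ?_
    rw [← Finset.sum_add_distrib]
    refine Finset.sum_eq_zero fun j _ => ?_
    ring
  refine ⟨x, hxK, y, hyK, z, hzK, hxy, hzy.symm, ?_, ?_⟩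
  · intro hxz
    rw [hxz] at hinner
    exact hzy (sub_eq_zero.1 (inner_self_eq_zero.1 hinner))
  · unfold EuclideanGeometry.angle
    rw [vsub_eq_sub, vsub_eq_sub]
    exact InnerProductGeometry.inner_eq_zero_iff_angle_eq_pi_div_two _ _ |>.1 hinner


end Pool.Agent.W342.AG
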