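import Pool.Agent.W342.AG.Core

/-!
The slicing lemma, subtask AG-15 for the problem MP_937c79_an.
-/

set_option autoImplicit false

open MeasureTheory Metric Set Filter
open scoped ENNReal RealInnerProductSpace Topology

namespace Pool.Agent.W342.AG
open Pool.Agent.W778.AG

lemma shell {n : ℕ} (m : ℕ) (s C' : ℝ) (hs : (m : ℝ) < s) (hC' : 0 < C') (ν : Measure (En n))
    (h : ∀ x, ∀ r : ℝ, 0 < r → ν (closedBall x r) ≤ ENNReal.ofReal (C' * r ^ s)) :
    ∃ A : ℝ, 0 ≤ A ∧ ∀ x, ∀ r : ℝ, 0 < r →
      ∫⁻ y in closedBall x r \ {x}, ENNReal.ofReal ((1 / ‖x - y‖) ^ m) ∂ν ≤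
        ENNReal.ofReal (A * r ^ (s - m)) := by
  set q : ℝ := 2 ^ (m : ℝ) / 2 ^ s with hq
  have hq0 : 0 < q := by positivity
  have hq1 : q < 1 := by
    rw [hq, div_lt_one (by positivity)]
    exact Real.rpow_lt_rpow_of_exponent_lt (by norm_num) hs
  have hgs := hasSum_geometric_of_lt_one hq0.le hq1
  refine ⟨C' * 2 ^ m * (1 - q)⁻¹, by
    have : 0 < (1 - q)⁻¹ := inv_pos.2 (by linarith)
    positivity, ?_⟩
  intro x r hr
  let sh : ℕ → Set (En n) := fun j => closedBall x (r / 2 ^ j) \ closedBall x (r / 2 ^ (j + 1))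
  have hcov : closedBall x r \ {x} ⊆ ⋃ j, sh j := by
    intro y hy
    obtain ⟨hy1, hy2⟩ := hy
    have hd : 0 < dist y x := dist_pos.2 (by simpa using hy2)
    have hd1 : dist y x ≤ r := hy1
    obtain ⟨j, hj1, hj2⟩ := exists_nat_pow_near_of_lt_one (x := dist y x / r) (y := 1 / 2)
      (by positivity) (by rw [div_le_one hr]; exact hd1) (by norm_num) (by norm_num)
    refine mem_iUnion.2 ⟨j, ?_, ?_⟩
    · rw [mem_closedBall]
      rw [div_le_iff₀ hr] at hj2
      calc dist y x ≤ (1 / 2) ^ j * r := hj2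
        _ = r / 2 ^ j := by rw [one_div, inv_pow]; field_simp
    · rw [mem_closedBall, not_le]
      rw [lt_div_iff₀ hr] at hj1
      calc r / 2 ^ (j + 1) = (1 / 2) ^ (j + 1) * r := by rw [one_div, inv_pow]; field_simp
        _ < dist y x := hj1
  have hj : ∀ j : ℕ, ∫⁻ y in sh j, ENNReal.ofReal ((1 / ‖x - y‖) ^ m) ∂ν ≤
      ENNReal.ofReal (C' * 2 ^ m * r ^ (s - m) * q ^ j) := by
    intro j
    calc ∫⁻ y in sh j, ENNReal.ofReal ((1 / ‖x - y‖) ^ m) ∂ν
        ≤ ∫⁻ y in sh j, ENNReal.ofReal ((2 ^ (j + 1) / r) ^ m) ∂ν := by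
          refine setLIntegral_mono' (measurableSet_closedBall.diff measurableSet_closedBall) ?_
          intro y hy
          refine ENNReal.ofReal_le_ofReal ?_
          have h1 : r / 2 ^ (j + 1) < ‖x - y‖ := by
            have := hy.2
            rw [mem_closedBall, not_le, dist_comm, dist_eq_norm] at this
            exact this
          have h2 : 1 / ‖x - y‖ ≤ 2 ^ (j + 1) / r := by
            rw [div_le_div_iff₀ (lt_trans (by positivity) h1) hr, one_mul]
            rw [div_lt_iff₀ (by positivity)] at h1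
            linarith [mul_comm ‖x - y‖ (2 ^ (j + 1))]
          gcongr
      _ = ENNReal.ofReal ((2 ^ (j + 1) / r) ^ m) * ν (sh j) := by
          rw [lintegral_const, Measure.restrict_apply_univ]
      _ ≤ ENNReal.ofReal ((2 ^ (j + 1) / r) ^ m) * ENNReal.ofReal (C' * (r / 2 ^ j) ^ s) := by
          gcongr
          exact (measure_mono sdiff_subset).trans (h x _ (by positivity))
      _ = _ := by
          rw [← ENNReal.ofReal_mul (by positivity)]
          congr 1
          have e1 : (r / 2 ^ j : ℝ) ^ s = r ^ s / (2 ^ s) ^ j := by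
            rw [Real.div_rpow hr.le (by positivity)]
            congr 1
            rw [← Real.rpow_natCast 2 j, ← Real.rpow_mul (by norm_num), mul_comm,
              Real.rpow_mul (by norm_num), Real.rpow_natCast]
          have e2 : r ^ (s - m) = r ^ s / r ^ m := by
            rw [Real.rpow_sub hr, Real.rpow_natCast]
          rw [e1, e2, hq, div_pow, div_pow, Real.rpow_natCast, pow_succ, mul_pow, ← pow_mul,
            ← pow_mul, mul_comm j m]
          field_simp
  calc ∫⁻ y in closedBall x r \ {x}, ENNReal.ofReal ((1 / ‖x - y‖) ^ m) ∂ν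
      ≤ ∫⁻ y in ⋃ j, sh j, ENNReal.ofReal ((1 / ‖x - y‖) ^ m) ∂ν :=
        lintegral_mono_set hcov
    _ ≤ ∑' j, ∫⁻ y in sh j, ENNReal.ofReal ((1 / ‖x - y‖) ^ m) ∂ν := lintegral_iUnion_le _ _
    _ ≤ ∑' j : ℕ, ENNReal.ofReal (C' * 2 ^ m * r ^ (s - m) * q ^ j) := ENNReal.tsum_le_tsum hj
    _ = ENNReal.ofReal (∑' j : ℕ, C' * 2 ^ m * r ^ (s - m) * q ^ j) := by
        rw [ENNReal.ofReal_tsum_of_nonneg (fun j => by positivity) (hgs.summable.mul_left _)]
    _ ≤ _ := by
        refine ENNReal.ofReal_le_ofReal (le_of_eq ?_)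
        rw [tsum_mul_left, hgs.tsum_eq]
        ring

lemma lower {m : ℕ} (μ : Measure (En m)) [IsFiniteMeasure μ] (R δ : ℝ) (hR : 0 ≤ R)
    (hδ : 0 < δ) (hδ1 : δ ≤ 1) (hμ : μ (closedBall 0 R)ᶜ = 0) :
    (μ univ) ^ 2 * ENNReal.ofReal ((1 / (2 * (R + 1))) ^ m) ≤
      ENNReal.ofReal ((1 / δ) ^ m) * (μ.prod μ) {z | dist z.1 z.2 ≤ δ} := by
  have hcore := core μ R (δ / 2) hμ
  have hball : ∀ r : ℝ, 0 < r → volume (ball (0 : En m) r) =
      ENNReal.ofReal (r ^ m) * volume (ball (0 : En m) 1) := by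
    intro r hr
    rw [Measure.addHaar_ball_of_pos volume (0 : En m) hr]
    simp
  set V : ℝ≥0∞ := volume (ball (0 : En m) 1) with hV
  have hV0 : V ≠ 0 := (measure_ball_pos _ _ one_pos).ne'
  have hVt : V ≠ ∞ := measure_ball_lt_top.ne
  have hmeas : MeasurableSet {z : En m × En m | dist z.1 z.2 ≤ δ} :=
    measurableSet_le (measurable_fst.dist measurable_snd) measurable_const
  have h1 : ∫⁻ x, ∫⁻ y, volume (ball x (δ / 2) ∩ ball y (δ / 2)) ∂μ ∂μ ≤
      ENNReal.ofReal ((δ / 2) ^ m) * V * (μ.prod μ) {z | dist z.1 z.2 ≤ δ} := by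
    calc ∫⁻ x, ∫⁻ y, volume (ball x (δ / 2) ∩ ball y (δ / 2)) ∂μ ∂μ
        ≤ ∫⁻ x, ∫⁻ y, ENNReal.ofReal ((δ / 2) ^ m) * V *
            indicator (closedBall x δ) 1 y ∂μ ∂μ := by
          refine lintegral_mono fun x => lintegral_mono fun y => ?_
          by_cases hy : y ∈ closedBall x δ
          · rw [indicator_of_mem hy, Pi.one_apply, mul_one]
            refine (measure_mono inter_subset_left).trans ?_
            rw [Measure.addHaar_ball_center volume x, hball _ (by positivity)]
          · rw [indicator_of_notMem hy, mul_zero, nonpos_iff_eq_zero]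
            convert measure_empty (μ := (volume : Measure (En m)))
            ext w
            simp only [mem_inter_iff, mem_ball, mem_empty_iff_false, iff_false, not_and, not_lt]
            intro hw
            rw [mem_closedBall, not_le] at hy
            have := dist_triangle y w x
            rw [dist_comm y w] at this
            linarith
      _ = _ := by
          rw [Measure.prod_apply hmeas]
          rw [← lintegral_const_mul _ (measurable_measure_prodMk_left hmeas)]
          refine lintegral_congr fun x => ?_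
          rw [lintegral_const_mul _ (measurable_one.indicator measurableSet_closedBall)]
          rw [lintegral_indicator_one measurableSet_closedBall]
          congr 2
          ext y
          simp [dist_comm]
  rw [hball _ (by positivity), hball _ (by positivity)] at hcore
  have h2 := hcore.trans (mul_le_mul_right h1 _)
  set U : ℝ≥0∞ := μ univ
  set W : ℝ≥0∞ := (μ.prod μ) {z | dist z.1 z.2 ≤ δ} with hW
  have h3 : ENNReal.ofReal ((R + δ / 2) ^ m) ≤ ENNReal.ofReal ((R + 1) ^ m) := by
    refine ENNReal.ofReal_le_ofReal ?_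
    gcongr
    linarith
  have h4 : (U * (ENNReal.ofReal ((δ / 2) ^ m) * V)) ^ 2 ≤
      ENNReal.ofReal ((R + 1) ^ m) * V * (ENNReal.ofReal ((δ / 2) ^ m) * V * W) := by
    refine h2.trans ?_
    gcongr
  set d : ℝ≥0∞ := ENNReal.ofReal ((δ / 2) ^ m) with hd
  have hd0 : d ≠ 0 := by
    rw [hd]
    exact (ENNReal.ofReal_pos.2 (by positivity)).ne'
  have hdt : d ≠ ∞ := ENNReal.ofReal_ne_top
  have h5 : U ^ 2 * d ≤ ENNReal.ofReal ((R + 1) ^ m) * W := by
    have h6 : (U ^ 2 * d) * (d * V * V) ≤ (ENNReal.ofReal ((R + 1) ^ m) * W) * (d * V * V) := by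
      calc (U ^ 2 * d) * (d * V * V) = (U * (d * V)) ^ 2 := by ring
        _ ≤ _ := h4
        _ = _ := by ring
    exact (ENNReal.mul_le_mul_iff_left (mul_ne_zero (mul_ne_zero hd0 hV0) hV0)
      (ENNReal.mul_ne_top (ENNReal.mul_ne_top hdt hVt) hVt)).1 h6
  have e1 : ENNReal.ofReal ((1 / (2 * (R + 1))) ^ m) =
      d * (ENNReal.ofReal ((1 / (R + 1)) ^ m) * ENNReal.ofReal ((1 / δ) ^ m)) := by
    rw [hd, ← ENNReal.ofReal_mul (by positivity), ← ENNReal.ofReal_mul (by positivity)]
    congr 1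
    rw [← mul_pow, ← mul_pow]
    congr 1
    field_simp
  have e2 : ENNReal.ofReal ((R + 1) ^ m) * ENNReal.ofReal ((1 / (R + 1)) ^ m) = 1 := by
    rw [← ENNReal.ofReal_mul (by positivity), ← mul_pow]
    rw [mul_one_div_cancel (by positivity)]
    simp
  calc U ^ 2 * ENNReal.ofReal ((1 / (2 * (R + 1))) ^ m)
      = (U ^ 2 * d) * (ENNReal.ofReal ((1 / (R + 1)) ^ m) * ENNReal.ofReal ((1 / δ) ^ m)) := by
        rw [e1]; ring
    _ ≤ (ENNReal.ofReal ((R + 1) ^ m) * W) *
        (ENNReal.ofReal ((1 / (R + 1)) ^ m) * ENNReal.ofReal ((1 / δ) ^ m)) := by gcongr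
    _ = (ENNReal.ofReal ((R + 1) ^ m) * ENNReal.ofReal ((1 / (R + 1)) ^ m)) *
        (ENNReal.ofReal ((1 / δ) ^ m) * W) := by ring
    _ = _ := by rw [e2, one_mul]

lemma modulus {n m : ℕ} (f : En n →L[ℝ] En m) (L : Set (En n)) (hL : IsCompact L)
    (hinj : InjOn f L) (r : ℝ) (hr : 0 < r) :
    ∃ δ : ℝ, 0 < δ ∧ ∀ x ∈ L, ∀ y ∈ L, ‖f (x - y)‖ ≤ δ → ‖x - y‖ ≤ r := by
  set D : Set (En n × En n) := (L ×ˢ L) ∩ {z | r ≤ ‖z.1 - z.2‖} with hD
  have hDc : IsCompact D := by
    refine (hL.prod hL).inter_right ?_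
    exact isClosed_le continuous_const (by fun_prop)
  rcases D.eq_empty_or_nonempty with hemp | hne
  · refine ⟨1, one_pos, fun x hx y hy _ => ?_⟩
    by_contra hcon
    have : (x, y) ∈ D := ⟨⟨hx, hy⟩, by simpa using (not_le.1 hcon).le⟩
    rw [hemp] at this
    exact this
  · obtain ⟨z, hzD, hz⟩ := hDc.exists_isMinOn hne
      (f := fun z => ‖f (z.1 - z.2)‖) (by fun_prop)
    have hpos : 0 < ‖f (z.1 - z.2)‖ := by
      rw [norm_pos_iff, map_sub, sub_ne_zero]
      intro heq
      have := hinj hzD.1.1 hzD.1.2 heq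
      have h2 : r ≤ ‖z.1 - z.2‖ := hzD.2
      rw [this, sub_self, norm_zero] at h2
      linarith
    refine ⟨‖f (z.1 - z.2)‖ / 2, by positivity, fun x hx y hy hle => ?_⟩
    by_contra hcon
    have hmem : (x, y) ∈ D := ⟨⟨hx, hy⟩, by simpa using (not_le.1 hcon).le⟩
    have := hz hmem
    simp only [mem_ofPred_eq] at this
    linarith

theorem slice : S_SLICE := by
  intro n m Ω _ P p C C' s ν K hP hpm hbound hν hK hνK hms hC hC' hgr
  obtain ⟨A, hA0, hA⟩ := shell m s C' hms hC' ν hgr
  set μ2 : Measure (En n × En n) := ν.prod ν with hμ2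
  let T : ℝ → Set (En n × En n) := fun r => {z | z.1 ≠ z.2 ∧ ‖z.1 - z.2‖ ≤ r}
  have hTm : ∀ r, MeasurableSet (T r) := by
    intro r
    refine MeasurableSet.inter ?_ ?_
    · exact (measurableSet_eq_fun measurable_fst measurable_snd).compl
    · exact measurableSet_le (f := fun z : En n × En n => ‖z.1 - z.2‖) (by fun_prop)
        measurable_const
  have hT : ∀ r : ℝ, 0 < r → ∫⁻ z in T r, ENNReal.ofReal ((1 / ‖z.1 - z.2‖) ^ m) ∂μ2 ≤
      ENNReal.ofReal (A * r ^ (s - m)) * ν univ := by
    intro r hr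
    have hmeas : Measurable (fun z : En n × En n => ENNReal.ofReal ((1 / ‖z.1 - z.2‖) ^ m)) := by
      fun_prop
    rw [← lintegral_indicator (hTm r), hμ2,
      lintegral_prod _ (hmeas.indicator (hTm r)).aemeasurable]
    calc ∫⁻ x, ∫⁻ y, (T r).indicator
          (fun z : En n × En n => ENNReal.ofReal ((1 / ‖z.1 - z.2‖) ^ m)) (x, y) ∂ν ∂ν
        ≤ ∫⁻ x, ENNReal.ofReal (A * r ^ (s - m)) ∂ν := by
          refine lintegral_mono fun x => ?_
          refine le_trans (le_of_eq ?_) (hA x r hr)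
          rw [← lintegral_indicator (measurableSet_closedBall.diff (measurableSet_singleton x))]
          refine lintegral_congr fun y => ?_
          by_cases hxy : (x, y) ∈ T r
          · rw [indicator_of_mem hxy, indicator_of_mem]
            refine ⟨?_, ?_⟩
            · rw [mem_closedBall, dist_comm, dist_eq_norm]; exact hxy.2
            · exact fun h => hxy.1 h.symm
          · rw [indicator_of_notMem hxy, indicator_of_notMem]
            intro h
            apply hxy
            refine ⟨fun h2 => h.2 h2.symm, ?_⟩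
            have := h.1
            rw [mem_closedBall, dist_comm, dist_eq_norm] at this
            exact this
      _ = _ := by rw [lintegral_const]
  let S : ℝ → ℝ → Set (Ω × (En n × En n)) := fun r δ =>
    {q | q.2 ∈ T r ∧ ‖p q.1 (q.2.1 - q.2.2)‖ ≤ δ}
  have hSm : ∀ r δ, MeasurableSet (S r δ) := by
    intro r δ
    refine MeasurableSet.inter ?_ ?_
    · exact measurable_snd (hTm r)
    · have h1 : Measurable (fun q : Ω × (En n × En n) => p q.1 (q.2.1 - q.2.2)) :=
        hpm.comp (by fun_prop : Measurable (fun q : Ω × (En n × En n) => (q.1, q.2.1 - q.2.2)))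
      exact measurableSet_le h1.norm measurable_const
  let F : ℝ → ℝ → Ω → ℝ≥0∞ := fun r δ o =>
    ENNReal.ofReal ((1 / δ) ^ m) * μ2 (Prod.mk o ⁻¹' S r δ)
  have hFm : ∀ r δ, Measurable (F r δ) := fun r δ =>
    (measurable_measure_prodMk_left (hSm r δ)).const_mul _
  have hFi : ∀ r : ℝ, 0 < r → ∀ δ : ℝ, 0 < δ → ∫⁻ o, F r δ o ∂P ≤
      ENNReal.ofReal C * (ENNReal.ofReal (A * r ^ (s - m)) * ν univ) := by
    intro r hr δ hδ
    calc ∫⁻ o, F r δ o ∂P
        = ENNReal.ofReal ((1 / δ) ^ m) * ∫⁻ o, μ2 (Prod.mk o ⁻¹' S r δ) ∂P := by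
          rw [lintegral_const_mul _ (measurable_measure_prodMk_left (hSm r δ))]
      _ = ENNReal.ofReal ((1 / δ) ^ m) * ∫⁻ z, P ((fun o => (o, z)) ⁻¹' S r δ) ∂μ2 := by
          rw [← Measure.prod_apply (hSm r δ), Measure.prod_apply_symm (hSm r δ)]
      _ ≤ ENNReal.ofReal ((1 / δ) ^ m) * ∫⁻ z in T r, ENNReal.ofReal (C * δ ^ m) *
            ENNReal.ofReal ((1 / ‖z.1 - z.2‖) ^ m) ∂μ2 := by
          refine mul_le_mul_right ?_ _
          rw [← lintegral_indicator (hTm r)]
          refine lintegral_mono fun z => ?_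
          by_cases hz : z ∈ T r
          · rw [indicator_of_mem hz]
            refine le_trans (measure_mono ?_) ((hbound (z.1 - z.2) (sub_ne_zero.2 hz.1) δ hδ).trans
              (le_of_eq ?_))
            · intro o ho
              exact ho.2
            · rw [← ENNReal.ofReal_mul (by positivity)]
              congr 1
              rw [div_pow, div_pow]
              ring
          · rw [indicator_of_notMem hz, nonpos_iff_eq_zero]
            convert measure_empty (μ := P)
            ext o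
            simp only [mem_preimage, mem_empty_iff_false, iff_false]
            exact fun h => hz h.1
      _ = ENNReal.ofReal ((1 / δ) ^ m) * (ENNReal.ofReal (C * δ ^ m) *
            ∫⁻ z in T r, ENNReal.ofReal ((1 / ‖z.1 - z.2‖) ^ m) ∂μ2) := by
          rw [lintegral_const_mul _ (by fun_prop)]
      _ = ENNReal.ofReal C * ∫⁻ z in T r, ENNReal.ofReal ((1 / ‖z.1 - z.2‖) ^ m) ∂μ2 := by
          rw [← mul_assoc, ← ENNReal.ofReal_mul (by positivity)]
          congr 2
          rw [div_pow, one_pow]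
          field_simp
      _ ≤ _ := by
          gcongr
          exact hT r hr
  let G : ℕ → Ω → ℝ≥0∞ := fun j o =>
    liminf (fun i : ℕ => F (1 / ((j : ℝ) + 1)) (1 / ((i : ℝ) + 1)) o) atTop
  have hG : ∀ j : ℕ, ∫⁻ o, G j o ∂P ≤
      ENNReal.ofReal C * (ENNReal.ofReal (A * (1 / ((j : ℝ) + 1)) ^ (s - m)) * ν univ) := by
    intro j
    refine (lintegral_liminf_le fun i => hFm _ _).trans ?_
    refine (liminf_le_liminf (Eventually.of_forall fun i => hFi _ (by positivity) _
      (by positivity))).trans ?_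
    simp
  have hinf : ∫⁻ o, ⨅ j, G j o ∂P = 0 := by
    have hlim : Tendsto (fun j : ℕ => ENNReal.ofReal C *
        (ENNReal.ofReal (A * (1 / ((j : ℝ) + 1)) ^ (s - m)) * ν univ)) atTop (𝓝 0) := by
      have h1 : Tendsto (fun j : ℕ => A * (1 / ((j : ℝ) + 1)) ^ (s - m)) atTop (𝓝 (A * 0)) := by
        refine Tendsto.const_mul _ ?_
        have h2 : Tendsto (fun j : ℕ => (1 / ((j : ℝ) + 1))) atTop (𝓝 0) :=
          tendsto_one_div_add_atTop_nhds_zero_nat
        have h3 := (Real.continuousAt_rpow_const 0 (s - m) (Or.inr (by linarith))).tendsto.comp h2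
        rw [Real.zero_rpow (by linarith)] at h3
        exact h3
      rw [mul_zero] at h1
      have h2 := (ENNReal.continuous_ofReal.tendsto 0).comp h1
      rw [ENNReal.ofReal_zero] at h2
      have h3 := ENNReal.Tendsto.mul_const (b := ν univ) h2 (Or.inr (measure_ne_top _ _))
      rw [zero_mul] at h3
      have h4 := ENNReal.Tendsto.const_mul (a := ENNReal.ofReal C) h3 (Or.inr ENNReal.ofReal_ne_top)
      rw [mul_zero] at h4
      exact h4
    refine le_antisymm (ge_of_tendsto hlim (Eventually.of_forall fun j => ?_)) zero_le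
    exact (lintegral_mono fun o => iInf_le _ j).trans (hG j)
  have hGm : ∀ j, Measurable (G j) := fun j => Measurable.liminf fun i => hFm _ _
  have hae : (fun o => ⨅ j, G j o) =ᵐ[P] 0 :=
    (lintegral_eq_zero_iff (Measurable.iInf hGm)).1 hinf
  filter_upwards [hae] with o ho L hL hinj
  by_contra hne
  obtain ⟨L', hL'L, hL'c, hL'pos⟩ := hL.exists_lt_isCompact_of_ne_top (measure_ne_top ν L)
    (pos_iff_ne_zero.2 hne)
  have hinj' : InjOn (p o) L' := hinj.mono hL'L
  -- the image is bounded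
  obtain ⟨R, hR0, hR⟩ : ∃ R : ℝ, 0 ≤ R ∧ ∀ x ∈ L', ‖p o x‖ ≤ R := by
    obtain ⟨R, hR⟩ := (hL'c.image (p o).continuous).isBounded.exists_norm_le
    exact ⟨max R 0, le_max_right _ _, fun x hx => (hR _ (mem_image_of_mem _ hx)).trans
      (le_max_left _ _)⟩
  set c : ℝ≥0∞ := (ν L') ^ 2 * ENNReal.ofReal ((1 / (2 * (R + 1))) ^ m) with hc
  have hcpos : 0 < c := by
    refine ENNReal.mul_pos ?_ ?_
    · exact pow_ne_zero _ hL'pos.ne'
    · exact (ENNReal.ofReal_pos.2 (by positivity)).ne'
  -- no atoms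
  have hatom : ∀ x, ν {x} = 0 := by
    intro x
    have hs0 : 0 < s := lt_of_le_of_lt (Nat.cast_nonneg m) hms
    have h1 : Tendsto (fun j : ℕ => ENNReal.ofReal (C' * (1 / ((j : ℝ) + 1)) ^ s)) atTop (𝓝 0) := by
      have h2 : Tendsto (fun j : ℕ => (1 / ((j : ℝ) + 1))) atTop (𝓝 0) :=
          tendsto_one_div_add_atTop_nhds_zero_nat
      have h3 := (Real.continuousAt_rpow_const 0 s (Or.inr hs0.le)).tendsto.comp h2
      rw [Real.zero_rpow hs0.ne'] at h3
      have h4 := h3.const_mul C'
      rw [mul_zero] at h4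
      have h5 := (ENNReal.continuous_ofReal.tendsto 0).comp h4
      rw [ENNReal.ofReal_zero] at h5
      exact h5
    refine le_antisymm (ge_of_tendsto h1 (Eventually.of_forall fun j => ?_)) zero_le
    refine (measure_mono ?_).trans (hgr x (1 / ((j : ℝ) + 1)) (by positivity))
    intro y hy
    rw [mem_singleton_iff] at hy
    rw [hy]
    exact mem_closedBall_self (by positivity)
  have hdiag : μ2 {z | z.1 = z.2} = 0 := by
    rw [hμ2, Measure.prod_apply (measurableSet_eq_fun measurable_fst measurable_snd)]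
    rw [lintegral_eq_zero_iff (measurable_measure_prodMk_left
      (measurableSet_eq_fun measurable_fst measurable_snd))]
    refine Eventually.of_forall fun x => ?_
    have : Prod.mk x ⁻¹' {z : En n × En n | z.1 = z.2} = {x} := by
      ext y
      simp [eq_comm]
    simp only [Pi.zero_apply]
    rw [this, hatom x]
  have hlow : ∀ r : ℝ, 0 < r → ∀ δ : ℝ, 0 < δ → δ ≤ 1 →
      (∀ x ∈ L', ∀ y ∈ L', ‖p o (x - y)‖ ≤ δ → ‖x - y‖ ≤ r) → c ≤ F r δ o := by
    intro r hr δ hδ hδ1 hmod
    set μ' : Measure (En m) := (ν.restrict L').map (p o) with hμ'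
    have hpc : Measurable (p o) := (p o).continuous.measurable
    have hμ'u : μ' univ = ν L' := by
      rw [hμ', Measure.map_apply hpc MeasurableSet.univ, preimage_univ,
        Measure.restrict_apply_univ]
    have hμ'0 : μ' (closedBall 0 R)ᶜ = 0 := by
      rw [hμ', Measure.map_apply hpc measurableSet_closedBall.compl,
        Measure.restrict_apply (hpc measurableSet_closedBall.compl)]
      convert measure_empty (μ := ν)
      ext x
      simp only [mem_inter_iff, mem_preimage, mem_compl_iff, mem_closedBall, dist_zero_right,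
        mem_empty_iff_false, iff_false, not_and]
      exact fun h1 h2 => h1 (hR x h2)
    have : IsFiniteMeasure μ' := by rw [hμ']; infer_instance
    have h1 := lower μ' R δ hR0 hδ hδ1 hμ'0
    rw [hμ'u] at h1
    refine h1.trans ?_
    show _ ≤ ENNReal.ofReal ((1 / δ) ^ m) * μ2 (Prod.mk o ⁻¹' S r δ)
    gcongr
    have hmeas : MeasurableSet {z : En m × En m | dist z.1 z.2 ≤ δ} :=
      measurableSet_le (measurable_fst.dist measurable_snd) measurable_const
    rw [hμ', Measure.map_prod_map _ _ hpc hpc, Measure.map_apply (by fun_prop) hmeas,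
      Measure.prod_restrict, Measure.restrict_apply]
    · calc (ν.prod ν) (Prod.map (p o) (p o) ⁻¹' {z | dist z.1 z.2 ≤ δ} ∩ L' ×ˢ L')
          ≤ (ν.prod ν) ((Prod.mk o ⁻¹' S r δ) ∪ {z | z.1 = z.2}) := by
            refine measure_mono ?_
            rintro ⟨x, y⟩ ⟨h1, h2, h3⟩
            by_cases hxy : x = y
            · exact Or.inr hxy
            · left
              have h4 : ‖p o (x - y)‖ ≤ δ := by
                have : dist (p o x) (p o y) ≤ δ := h1
                rwa [dist_eq_norm, ← map_sub] at this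
              exact ⟨⟨hxy, hmod x h2 y h3 h4⟩, h4⟩
        _ ≤ (ν.prod ν) (Prod.mk o ⁻¹' S r δ) + (ν.prod ν) {z | z.1 = z.2} := measure_union_le _ _
        _ = _ := by rw [hdiag, add_zero]
    · exact (by fun_prop : Measurable (Prod.map (p o) (p o))) hmeas
  have hGc : ∀ j, c ≤ G j o := by
    intro j
    obtain ⟨δ0, hδ0, hmod⟩ := modulus (p o) L' hL'c hinj' (1 / ((j : ℝ) + 1)) (by positivity)
    refine le_liminf_of_le (by isBoundedDefault) ?_
    have hev : ∀ᶠ i : ℕ in atTop, 1 / ((i : ℝ) + 1) ≤ δ0 :=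
      (tendsto_one_div_add_atTop_nhds_zero_nat.eventually_lt_const hδ0).mono fun i hi => hi.le
    filter_upwards [hev] with i hi
    refine hlow _ (by positivity) _ (by positivity) ?_ ?_
    · rw [div_le_one (by positivity)]
      linarith [Nat.cast_nonneg (α := ℝ) i]
    · intro x hx y hy hxy
      exact hmod x hx y hy (hxy.trans hi)
  have : c ≤ ⨅ j, G j o := le_iInf hGc
  have ho' : ⨅ j, G j o = 0 := ho
  rw [ho'] at this
  exact absurd this (not_le.2 hcpos)


end Pool.Agent.W342.AG
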