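import Pool.Agent.W778.AG.Stmts
import Pool.Agent.H744R2.Falc.FrostH

/-!
Small dimension, all angles, from the slicing lemma (MP_937c79_an, AG-16).
-/

set_option autoImplicit false

open MeasureTheory Metric Set Filter
open scoped ENNReal RealInnerProductSpace Topology

namespace Pool.Agent.W342.AG
open Pool.Agent.W778.AG

lemma one_bound (u v δ : ℝ) (hu : u ≠ 0) (hδ : 0 ≤ δ) :
    volume {x : ℝ | |v - x * u| ≤ δ} = ENNReal.ofReal (2 * (δ / |u|)) := by
  have h1 : {x : ℝ | |v - x * u| ≤ δ} = closedBall (v / u) (δ / |u|) := by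
    ext x
    rw [mem_closedBall, Real.dist_eq, le_div_iff₀ (abs_pos.2 hu), ← abs_mul, sub_mul,
      div_mul_cancel₀ _ hu, abs_sub_comm]
    rfl
  rw [h1, Real.volume_closedBall]

lemma line_bound {b : ℕ} (R u : ℝ) (v : Fin b → ℝ) (W δ : ℝ) (hR : 0 ≤ R) (hW0 : 0 < W)
    (hW : W ≤ |u| + ∑ i, |v i|) (hδ : 0 < δ) :
    volume {m : Fin b → ℝ | (∀ i, |m i| ≤ R) ∧ ∀ i, |v i - m i * u| ≤ δ} ≤
      ENNReal.ofReal ((8 * (b + 1) * (R + 1)) ^ b * (δ / W) ^ b) := by
  by_cases hj : W / (4 * (b + 1) * (R + 1)) ≤ |u|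
  · have hpos : 0 < |u| := lt_of_lt_of_le (by positivity) hj
    calc volume {m : Fin b → ℝ | (∀ i, |m i| ≤ R) ∧ ∀ i, |v i - m i * u| ≤ δ}
        ≤ volume (pi univ fun i : Fin b => {x : ℝ | |v i - x * u| ≤ δ}) := by
          refine measure_mono ?_
          rintro M ⟨h1, h2⟩ i _
          exact h2 i
      _ = ∏ i : Fin b, volume {x : ℝ | |v i - x * u| ≤ δ} := volume_pi_pi _
      _ = ∏ i : Fin b, ENNReal.ofReal (2 * (δ / |u|)) :=
          Finset.prod_congr rfl fun i _ => one_bound u (v i) δ (abs_pos.1 hpos) hδ.le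
      _ = ENNReal.ofReal ((2 * (δ / |u|)) ^ b) := by
          rw [Finset.prod_const, Finset.card_univ, Fintype.card_fin, ENNReal.ofReal_pow]
          positivity
      _ ≤ _ := by
          refine ENNReal.ofReal_le_ofReal ?_
          rw [← mul_pow]
          gcongr ?_ ^ _
          rw [mul_div_assoc', div_le_iff₀ hpos]
          calc 2 * δ = (8 * (b + 1) * (R + 1) * (δ / W)) * (W / (4 * (b + 1) * (R + 1))) := by
                field_simp; norm_num
            _ ≤ _ := by gcongr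
  · push Not at hj
    by_cases hemp : {m : Fin b → ℝ | (∀ i, |m i| ≤ R) ∧ ∀ i, |v i - m i * u| ≤ δ} = ∅
    · rw [hemp, measure_empty]; exact zero_le
    obtain ⟨M, hM1, hM2⟩ := nonempty_iff_ne_empty.2 hemp
    have hbox : volume {m : Fin b → ℝ | (∀ i, |m i| ≤ R) ∧ ∀ i, |v i - m i * u| ≤ δ} ≤
        ENNReal.ofReal ((2 * R) ^ b) := by
      calc volume {m : Fin b → ℝ | (∀ i, |m i| ≤ R) ∧ ∀ i, |v i - m i * u| ≤ δ}
          ≤ volume (pi univ fun i : Fin b => Icc (-R) R) := by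
            refine measure_mono ?_
            rintro M ⟨h1, h2⟩ i _
            exact abs_le.1 (h1 i)
        _ = _ := by
            rw [volume_pi_pi]
            simp only [Real.volume_Icc, Finset.prod_const, Finset.card_univ, Fintype.card_fin]
            rw [← ENNReal.ofReal_pow (by linarith)]
            congr 2; ring
    refine hbox.trans (ENNReal.ofReal_le_ofReal ?_)
    rw [← mul_pow]
    gcongr ?_ ^ _
    have hsv2 : ∑ i, |v i| ≤ b * (δ + R * |u|) := by
      calc ∑ i, |v i| ≤ ∑ i : Fin b, (δ + R * |u|) := by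
            refine Finset.sum_le_sum fun i _ => ?_
            have h1 := hM2 i
            have h3 : |v i| ≤ |v i - M i * u| + |M i * u| := by
              calc |v i| = |(v i - M i * u) + M i * u| := by ring_nf
                _ ≤ _ := abs_add_le _ _
            have h4 : |M i * u| ≤ R * |u| := by
              rw [abs_mul]; exact mul_le_mul_of_nonneg_right (hM1 i) (abs_nonneg _)
            linarith
        _ = _ := by simp [mul_add]
    have hb : (0 : ℝ) ≤ b := Nat.cast_nonneg b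
    rw [lt_div_iff₀ (by positivity)] at hj
    have hu0 := abs_nonneg u
    have h8 : 3 / 4 * W ≤ b * δ := by
      have : W ≤ |u| + b * (δ + R * |u|) := hW.trans (by linarith)
      nlinarith [mul_nonneg hb hu0, mul_nonneg hR hu0, mul_nonneg (mul_nonneg hb hR) hu0]
    have hbpos : 1 / 2 ≤ (b + 1) * (δ / W) := by
      rw [mul_div_assoc', le_div_iff₀ hW0]
      nlinarith
    calc 2 * R ≤ 8 * (R + 1) * (1 / 2) := by linarith
      _ ≤ 8 * (R + 1) * ((b + 1) * (δ / W)) := by gcongr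
      _ = _ := by ring

/-- projection along the direction `(1, m)` -/
noncomputable def pl {b : ℕ} (m : Fin b → ℝ) : En (b + 1) →L[ℝ] En b :=
  LinearMap.toContinuousLinearMap
    { toFun := fun w => WithLp.toLp 2 (fun i => w i.succ - m i * w 0)
      map_add' := by
        intro w w'
        ext i
        simp [mul_add]
        ring
      map_smul' := by
        intro c w
        ext i
        simp [mul_sub]
        ring }

lemma pl_apply {b : ℕ} (m : Fin b → ℝ) (w : En (b + 1)) (i : Fin b) :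
    pl m w i = w i.succ - m i * w 0 := rfl

lemma pl_inj {b : ℕ} (m : Fin b → ℝ) (x y : En (b + 1)) (h : pl m x = pl m y) (h0 : x 0 = y 0) :
    x = y := by
  ext i
  refine Fin.cases h0 (fun j => ?_) i
  have h1 : pl m x j = pl m y j := by rw [h]
  rw [pl_apply, pl_apply, h0] at h1
  linarith

lemma pl_bound {b : ℕ} (R : ℝ) (hR : 0 ≤ R) (w : En (b + 1)) (hw : w ≠ 0) (δ : ℝ) (hδ : 0 < δ) :
    volume.restrict {m : Fin b → ℝ | ∀ i, |m i| ≤ R} {m | ‖pl m w‖ ≤ δ} ≤
      ENNReal.ofReal ((8 * (b + 1) * (R + 1)) ^ b * (δ / ‖w‖) ^ b) := by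
  have hbox : MeasurableSet {m : Fin b → ℝ | ∀ i, |m i| ≤ R} := by
    have : {m : Fin b → ℝ | ∀ i, |m i| ≤ R} = ⋂ i, {m | |m i| ≤ R} := by
      ext M; simp
    rw [this]
    exact MeasurableSet.iInter fun i => measurableSet_le (by fun_prop) measurable_const
  rw [Measure.restrict_apply' hbox]
  refine le_trans (measure_mono ?_) (line_bound R (w 0) (fun i => w i.succ) ‖w‖ δ hR
      (norm_pos_iff.2 hw) ?_ hδ)
  · rintro M ⟨h1, h2⟩
    refine ⟨h2, fun i => ?_⟩
    have h3 := PiLp.norm_apply_le (pl M w) i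
    rw [pl_apply, Real.norm_eq_abs] at h3
    exact h3.trans h1
  · rw [← Fin.sum_univ_succ (fun i => |w i|)]
    rw [EuclideanSpace.norm_eq w]
    refine Real.sqrt_le_iff.2 ⟨Finset.sum_nonneg fun i _ => abs_nonneg _, ?_⟩
    simp only [Real.norm_eq_abs]
    exact Finset.sum_sq_le_sq_sum_of_nonneg (fun i _ => abs_nonneg _)

/-- the half line from `y` in direction `(1, m)` meets `K` -/
def good {b : ℕ} (K : Set (En (b + 1))) (m : Fin b → ℝ) (y : En (b + 1)) : Prop :=
  ∃ x ∈ K, y 0 < x 0 ∧ pl m x = pl m y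

lemma pl_cont {b : ℕ} : Continuous (fun z : (Fin b → ℝ) × En (b + 1) => pl z.1 z.2) := by
  have h1 : Continuous (fun z : (Fin b → ℝ) × En (b + 1) =>
        (fun i => z.2 i.succ - z.1 i * z.2 0 : Fin b → ℝ)) := by
    refine continuous_pi fun i => ?_
    fun_prop
  exact (PiLp.continuous_toLp 2 _).comp h1

lemma good_meas {b : ℕ} (K : Set (En (b + 1))) (hK : IsCompact K) :
    MeasurableSet {z : (Fin b → ℝ) × En (b + 1) | good K z.1 z.2} := by
  have hcs : CompactSpace K := isCompact_iff_compactSpace.1 hK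
  have h1 : {z : (Fin b → ℝ) × En (b + 1) | good K z.1 z.2} =
      ⋃ j : ℕ, Prod.fst '' {q : ((Fin b → ℝ) × En (b + 1)) × K |
        q.1.2 0 + 1 / ((j : ℝ) + 1) ≤ (q.2 : En (b + 1)) 0 ∧
        pl q.1.1 (q.2 : En (b + 1)) = pl q.1.1 q.1.2} := by
    ext z
    constructor
    · rintro ⟨x, hx, h1, h2⟩
      obtain ⟨j, hj⟩ := exists_nat_one_div_lt (sub_pos.2 h1)
      refine mem_iUnion.2 ⟨j, ⟨(z, ⟨x, hx⟩), ⟨?_, h2⟩, rfl⟩⟩
      show z.2 0 + 1 / ((j : ℝ) + 1) ≤ x 0
      linarith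
    · intro hz
      obtain ⟨j, ⟨⟨z', ⟨x, hx⟩⟩, ⟨h1, h2⟩, rfl⟩⟩ := mem_iUnion.1 hz
      refine ⟨x, hx, ?_, h2⟩
      have : 0 < 1 / ((j : ℝ) + 1) := by positivity
      have h3 : z'.2 0 + 1 / ((j : ℝ) + 1) ≤ x 0 := h1
      show z'.2 0 < x 0
      linarith
  rw [h1]
  refine MeasurableSet.iUnion fun j => ?_
  refine IsClosed.measurableSet ?_
  refine isClosedMap_fst_of_compactSpace _ (IsClosed.inter ?_ ?_)
  · exact isClosed_le (f := fun q : ((Fin b → ℝ) × En (b + 1)) × K => q.1.2 0 + 1 / ((j : ℝ) + 1))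
      (g := fun q : ((Fin b → ℝ) × En (b + 1)) × K => (q.2 : En (b + 1)) 0) (by fun_prop)
      (by fun_prop)
  · refine isClosed_eq (f := fun q : ((Fin b → ℝ) × En (b + 1)) × K =>
      pl q.1.1 (q.2 : En (b + 1))) (g := fun q => pl q.1.1 q.1.2) ?_ ?_
    · exact pl_cont.comp (by fun_prop : Continuous (fun q : ((Fin b → ℝ) × En (b + 1)) × K =>
        (q.1.1, (q.2 : En (b + 1)))))
    · exact pl_cont.comp (by fun_prop : Continuous (fun q : ((Fin b → ℝ) × En (b + 1)) × K =>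
        (q.1.1, q.1.2)))

lemma good_ae (hS : S_SLICE) {b : ℕ} (C' s : ℝ) (ν : Measure (En (b + 1))) [IsFiniteMeasure ν]
    (K : Set (En (b + 1))) (hK : IsCompact K)
    (hνK : ν Kᶜ = 0) (hms : (b : ℝ) < s) (hC' : 0 < C')
    (hgr : ∀ x, ∀ r : ℝ, 0 < r → ν (closedBall x r) ≤ ENNReal.ofReal (C' * r ^ s)) :
    ∀ᵐ y ∂ν, ∀ᵐ m : Fin b → ℝ, good K m y := by
  rw [← Measure.ae_ae_comm (good_meas K hK)]
  have hR : ∀ R : ℕ, ∀ᵐ m : Fin b → ℝ, m ∈ {m : Fin b → ℝ | ∀ i, |m i| ≤ (R : ℝ)} →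
      ∀ᵐ y ∂ν, good K m y := by
    intro R
    have hbox : MeasurableSet {m : Fin b → ℝ | ∀ i, |m i| ≤ (R : ℝ)} := by
      have : {m : Fin b → ℝ | ∀ i, |m i| ≤ (R : ℝ)} = ⋂ i, {m | |m i| ≤ (R : ℝ)} := by
        ext M; simp
      rw [this]
      exact MeasurableSet.iInter fun i => measurableSet_le (by fun_prop) measurable_const
    rw [← ae_restrict_iff' hbox]
    filter_upwards [hS (b + 1) b (Fin b → ℝ) _
      (volume.restrict {m : Fin b → ℝ | ∀ i, |m i| ≤ (R : ℝ)}) (fun m => pl m)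
      ((8 * (b + 1) * (R + 1)) ^ b) C' s ν K inferInstance pl_cont.measurable
      (fun w hw δ hδ => pl_bound (R : ℝ) (by positivity) w hw δ hδ)
      inferInstance hK hνK hms (by positivity) hC' hgr] with m hm
    have hgm : MeasurableSet {y | good K m y} := by
      have h1 := good_meas K hK
      exact (measurable_prodMk_left (x := m)) h1
    have hL : ν (K \ {y | good K m y}) = 0 := by
      refine hm _ (hK.measurableSet.diff hgm) ?_
      intro y hy y' hy' heq
      refine pl_inj m y y' heq ?_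
      rcases lt_trichotomy (y 0) (y' 0) with h | h | h
      · exact absurd ⟨y', hy'.1, h, heq.symm⟩ hy.2
      · exact h
      · exact absurd ⟨y, hy.1, h, heq⟩ hy'.2
    rw [ae_iff]
    refine measure_mono_null ?_ (measure_union_null hL hνK)
    intro y hy
    by_cases hyK : y ∈ K
    · left
      exact ⟨hyK, hy⟩
    · right; exact hyK
  filter_upwards [ae_all_iff.2 hR] with m hm
  obtain ⟨R, hR⟩ := exists_nat_ge (∑ i, |m i|)
  refine hm R fun i => ?_
  exact (Finset.single_le_sum (f := fun i => |m i|) (fun i _ => abs_nonneg _)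
    (Finset.mem_univ i)).trans hR

/-- length of the part of the direction orthogonal to the second coordinate vector -/
noncomputable def cc {b : ℕ} (m : Fin (b + 1) → ℝ) : ℝ := Real.sqrt (1 + ∑ i : Fin b, m i.succ ^ 2)

lemma cc_sq {b : ℕ} (m : Fin (b + 1) → ℝ) : cc m ^ 2 = 1 + ∑ i : Fin b, m i.succ ^ 2 := by
  unfold cc
  rw [Real.sq_sqrt]
  have : 0 ≤ ∑ i : Fin b, m i.succ ^ 2 := Finset.sum_nonneg fun i _ => sq_nonneg _
  linarith

lemma cc_pos {b : ℕ} (m : Fin (b + 1) → ℝ) : 0 < cc m := by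
  unfold cc
  apply Real.sqrt_pos.2
  have : 0 ≤ ∑ i : Fin b, m i.succ ^ 2 := Finset.sum_nonneg fun i _ => sq_nonneg _
  linarith

lemma cc_diff {b : ℕ} : Differentiable ℝ (cc (b := b)) := by
  unfold cc
  refine Differentiable.sqrt (by fun_prop) ?_
  intro m
  have : 0 ≤ ∑ i : Fin b, m i.succ ^ 2 := Finset.sum_nonneg fun i _ => sq_nonneg _
  positivity

/-- angle coordinate -/
noncomputable def Psi {b : ℕ} (m : Fin (b + 1) → ℝ) : Fin (b + 1) → ℝ :=
  Fin.cons (Real.arctan (m 0 / cc m)) (fun i => m i.succ)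

lemma Psi_diff {b : ℕ} : Differentiable ℝ (Psi (b := b)) := by
  rw [differentiable_pi]
  intro i
  refine Fin.cases ?_ (fun j => ?_) i
  · have : (fun m : Fin (b + 1) → ℝ => Psi m 0) = fun m => Real.arctan (m 0 / cc m) := by
      funext m; simp [Psi]
    rw [this]
    refine Differentiable.arctan ?_
    have h1 : Differentiable ℝ (fun m : Fin (b + 1) → ℝ => m 0 * (cc m)⁻¹) :=
      Differentiable.mul (by fun_prop) (cc_diff.inv fun m => (cc_pos m).ne')
    simpa only [div_eq_mul_inv] using h1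
  · have : (fun m : Fin (b + 1) → ℝ => Psi m j.succ) = fun m => m j.succ := by
      funext m; simp [Psi]
    rw [this]
    fun_prop

/-- from the angle coordinate to the slope -/
noncomputable def Phi {b : ℕ} (m : Fin (b + 1) → ℝ) (φ : ℝ) : Fin (b + 1) → ℝ :=
  Fin.cons (cc m * Real.tan φ) (fun i => m i.succ)

lemma cc_Phi {b : ℕ} (m : Fin (b + 1) → ℝ) (φ : ℝ) : cc (Phi m φ) = cc m := by
  simp [cc, Phi]

lemma Psi_Phi {b : ℕ} (m : Fin (b + 1) → ℝ) (φ : ℝ) (h1 : -(Real.pi / 2) < φ)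
    (h2 : φ < Real.pi / 2) : Psi (Phi m φ) = Fin.cons φ (fun i => m i.succ) := by
  unfold Psi
  rw [cc_Phi]
  have : Phi m φ 0 / cc m = Real.tan φ := by
    simp only [Phi, Fin.cons_zero]
    rw [mul_comm, mul_div_cancel_right₀ _ (cc_pos m).ne']
  rw [this, Real.arctan_tan h1 h2]
  simp [Phi]

/-- the direction `(1, m)` -/
noncomputable def dv {b : ℕ} (m : Fin b → ℝ) : En (b + 1) := WithLp.toLp 2 (Fin.cons 1 m)

lemma good_dir {b : ℕ} (K : Set (En (b + 1))) (m : Fin b → ℝ) (y : En (b + 1)) (h : good K m y) :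
    ∃ x ∈ K, ∃ t : ℝ, 0 < t ∧ x - y = t • dv m := by
  obtain ⟨x, hx, h0, h1⟩ := h
  refine ⟨x, hx, x 0 - y 0, by linarith, ?_⟩
  ext i
  refine Fin.cases ?_ (fun j => ?_) i
  · simp [dv]
  · have h2 : pl m x j = pl m y j := by rw [h1]
    rw [pl_apply, pl_apply] at h2
    simp [dv]
    linarith

lemma dv_inner {b : ℕ} (m : Fin (b + 1) → ℝ) (φ ψ : ℝ) :
    ⟪dv (Phi m φ), dv (Phi m ψ)⟫ = cc m ^ 2 * (1 + Real.tan φ * Real.tan ψ) := by
  rw [EuclideanSpace.inner_eq_star_dotProduct]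
  show ∑ i, (dv (Phi m ψ)) i * (dv (Phi m φ)) i = _
  rw [Fin.sum_univ_succ, Fin.sum_univ_succ]
  simp only [dv, Phi, Fin.cons_zero, Fin.cons_succ]
  have : ∑ i : Fin b, m i.succ * m i.succ = cc m ^ 2 - 1 := by
    rw [cc_sq]; simp [sq]
  rw [this]
  ring

lemma dv_norm {b : ℕ} (m : Fin (b + 1) → ℝ) (φ : ℝ) (h1 : -(Real.pi / 2) < φ)
    (h2 : φ < Real.pi / 2) : ‖dv (Phi m φ)‖ = cc m / Real.cos φ := by
  have hc : 0 < Real.cos φ := Real.cos_pos_of_mem_Ioo ⟨h1, h2⟩
  have hcp := cc_pos m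
  rw [← Real.sqrt_sq (norm_nonneg (dv (Phi m φ))), ← real_inner_self_eq_norm_sq, dv_inner]
  have : cc m ^ 2 * (1 + Real.tan φ * Real.tan φ) = (cc m / Real.cos φ) ^ 2 := by
    rw [Real.tan_eq_sin_div_cos]
    field_simp
    rw [add_comm]
    exact Real.sin_sq_add_cos_sq φ
  rw [this, Real.sqrt_sq (by positivity)]

theorem small (hS : S_SLICE) : S_SMALL := by
  intro n hn K hK hdim α hα hαπ
  obtain ⟨b, rfl⟩ : ∃ b, n = b + 1 + 1 := ⟨n - 2, by omega⟩
  -- a number strictly between n - 1 and the dimension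
  obtain ⟨s, hs1, hs2⟩ : ∃ s : ℝ, ((b + 1 : ℕ) : ℝ) < s ∧ ENNReal.ofReal s < dimH K := by
    have h1 : ENNReal.ofReal (((b + 1 : ℕ) : ℝ)) < dimH K := by
      refine lt_of_eq_of_lt ?_ hdim
      congr 1
      push_cast
      ring
    obtain ⟨r, hr1, hr2⟩ := ENNReal.lt_iff_exists_nnreal_btwn.1 h1
    refine ⟨r, ?_, by simpa using hr2⟩
    rw [ENNReal.ofReal_lt_coe_iff (by positivity)] at hr1
    exact hr1
  have hs0 : 0 ≤ s := le_trans (Nat.cast_nonneg _) hs1.le
  obtain ⟨ν, hprob, hνK, C', hC', hgr⟩ := Pool.Agent.H744R2.Falc.frostman_dimH _ K hK s hs0 hs2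
  have hgood := good_ae hS C' s ν K hK hνK hs1 hC' hgr
  have hK' : ∀ᵐ y ∂ν, y ∈ K := by
    rw [ae_iff]; exact hνK
  obtain ⟨y, hy, hyK⟩ := (hgood.and hK').exists
  set N : Set (Fin (b + 1) → ℝ) := {m | ¬ good K m y} with hN
  have hN0 : volume N = 0 := by rw [ae_iff] at hy; exact hy
  have hPN : volume (Psi '' N) = 0 :=
    addHaar_image_eq_zero_of_differentiableOn_of_addHaar_eq_zero volume
      Psi_diff.differentiableOn hN0
  set e : Fin (b + 1) → ℝ := Fin.cons α 0 with he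
  have hPN2 : volume ((fun m => m + e) ⁻¹' (Psi '' N)) = 0 := by
    rw [measure_preimage_add_right]; exact hPN
  set E : Set (Fin (b + 1) → ℝ) := {m | -(Real.pi / 2) < m 0 ∧ m 0 < Real.pi / 2 - α} with hE
  have hEo : IsOpen E := by
    refine IsOpen.inter ?_ ?_
    · exact isOpen_lt (g := fun m : Fin (b + 1) → ℝ => m 0) continuous_const (by fun_prop)
    · exact isOpen_lt (f := fun m : Fin (b + 1) → ℝ => m 0) (by fun_prop) continuous_const
  have hEne : E.Nonempty := by
    refine ⟨fun _ => -(α / 2), ?_, ?_⟩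
    · linarith
    · linarith
  have hE0 := hEo.measure_pos volume hEne
  obtain ⟨m, hmE, hm1, hm2⟩ : ∃ m ∈ E, m ∉ Psi '' N ∧ m + e ∉ Psi '' N := by
    by_contra hcon
    push Not at hcon
    have : E ⊆ Psi '' N ∪ (fun m => m + e) ⁻¹' (Psi '' N) := by
      intro m hm
      by_cases h : m ∈ Psi '' N
      · exact Or.inl h
      · exact Or.inr (hcon m hm h)
    have h0 : volume E = 0 := measure_mono_null this (measure_union_null hPN hPN2)
    exact hE0.ne' h0
  have hφ1 : -(Real.pi / 2) < m 0 := hmE.1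
  have hφ2 : m 0 < Real.pi / 2 - α := hmE.2
  have hg1 : good K (Phi m (m 0)) y := by
    by_contra hcon
    apply hm1
    refine ⟨Phi m (m 0), hcon, ?_⟩
    rw [Psi_Phi m _ hφ1 (by linarith)]
    exact Fin.cons_self_tail m
  have hg2 : good K (Phi m (m 0 + α)) y := by
    by_contra hcon
    apply hm2
    refine ⟨Phi m (m 0 + α), hcon, ?_⟩
    rw [Psi_Phi m _ (by linarith) (by linarith), he]
    funext i
    refine Fin.cases ?_ (fun j => ?_) i <;> simp
  obtain ⟨x, hxK, t, ht, hx⟩ := good_dir K _ y hg1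
  obtain ⟨z, hzK, t', ht', hz⟩ := good_dir K _ y hg2
  have hang : EuclideanGeometry.angle x y z = α := by
    unfold EuclideanGeometry.angle
    rw [vsub_eq_sub, vsub_eq_sub, hx, hz, InnerProductGeometry.angle_smul_left_of_pos _ _ ht,
      InnerProductGeometry.angle_smul_right_of_pos _ _ ht']
    unfold InnerProductGeometry.angle
    rw [dv_inner, dv_norm _ _ hφ1 (by linarith), dv_norm _ _ (by linarith) (by linarith)]
    have hc1 : 0 < Real.cos (m 0) := Real.cos_pos_of_mem_Ioo ⟨hφ1, by linarith⟩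
    have hc2 : 0 < Real.cos (m 0 + α) := Real.cos_pos_of_mem_Ioo ⟨by linarith, by linarith⟩
    have hcp := cc_pos m
    have : cc m ^ 2 * (1 + Real.tan (m 0) * Real.tan (m 0 + α)) /
        (cc m / Real.cos (m 0) * (cc m / Real.cos (m 0 + α))) = Real.cos α := by
      rw [Real.tan_eq_sin_div_cos, Real.tan_eq_sin_div_cos]
      have h3 : Real.cos α = Real.cos (m 0 + α) * Real.cos (m 0) +
          Real.sin (m 0 + α) * Real.sin (m 0) := by
        rw [← Real.cos_sub]; congr 1; ring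
      rw [h3]
      field_simp
    rw [this, Real.arccos_cos hα.le hαπ.le]
  have hdv : ∀ m : Fin (b + 1) → ℝ, dv m ≠ 0 := by
    intro m h
    have : dv m 0 = 0 := by rw [h]; rfl
    simp [dv] at this
  have hxy : x ≠ y := by
    intro h
    rw [h, sub_self] at hx
    exact (smul_ne_zero ht.ne' (hdv _)) hx.symm
  have hzy : z ≠ y := by
    intro h
    rw [h, sub_self] at hz
    exact (smul_ne_zero ht'.ne' (hdv _)) hz.symm
  refine ⟨x, hxK, y, hyK, z, hzK, hxy, hzy.symm, ?_, hang⟩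
  intro hxz
  rw [hxz, EuclideanGeometry.angle_self_of_ne hzy] at hang
  exact hα.ne hang


end Pool.Agent.W342.AG
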