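import Pool.Agent.W778.AG.Stmts

/-!
Dyadic net content: the increasing sets lemma (MP_937c79_an, AG-14).
-/

set_option autoImplicit false

open MeasureTheory Metric Set Filter
open scoped ENNReal NNReal Topology

namespace Pool.Agent.W342.AG
open Pool.Agent.W778.AG

/-- nodes of the dyadic tree -/
abbrev Nd (n : ℕ) := ℕ × (Fin n → ℤ)

/-- index of the dyadic cube of level `j` of a point -/
noncomputable def dcell {n : ℕ} (j : ℕ) (x : En n) : Fin n → ℤ := fun i => ⌊(2 : ℝ) ^ j * x i⌋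

/-- the cube of a node -/
def cube {n : ℕ} (p : Nd n) : Set (En n) := {x | dcell p.1 x = p.2}

lemma dcell_nest {n : ℕ} {k j : ℕ} (hkj : k ≤ j) {x y : En n} (h : dcell j x = dcell j y) :
    dcell k x = dcell k y := by
  obtain ⟨d, rfl⟩ := Nat.exists_eq_add_of_le hkj
  funext i
  have h1 := congrFun h i
  unfold dcell at h1 ⊢
  have key : ∀ z : ℝ, ⌊(2 : ℝ) ^ k * z⌋ = ⌊(2 : ℝ) ^ (k + d) * z⌋ / (2 ^ d : ℕ) := by
    intro z
    rw [← Int.floor_div_natCast]
    congr 1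
    push_cast
    rw [pow_add]
    field_simp
  rw [key, key, h1]

lemma cube_nonempty {n : ℕ} (p : Nd n) : (cube p).Nonempty := by
  refine ⟨WithLp.toLp 2 (fun i => (p.2 i : ℝ) / 2 ^ p.1), ?_⟩
  funext i
  unfold dcell
  have : (2 : ℝ) ^ p.1 * ((p.2 i : ℝ) / 2 ^ p.1) = (p.2 i : ℝ) := by field_simp
  simp only [this, Int.floor_intCast]

/-- smaller cube -/
def lec {n : ℕ} (p q : Nd n) : Prop := cube p ⊆ cube q ∧ q.1 ≤ p.1

lemma lec_refl {n : ℕ} (p : Nd n) : lec p p := ⟨Subset.rfl, le_rfl⟩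

lemma lec_trans {n : ℕ} {p q r : Nd n} (h1 : lec p q) (h2 : lec q r) : lec p r :=
  ⟨h1.1.trans h2.1, h2.2.trans h1.2⟩

lemma lec_eq {n : ℕ} {p q : Nd n} (h1 : lec p q) (h2 : p.1 ≤ q.1) : p = q := by
  have h : p.1 = q.1 := le_antisymm h2 h1.2
  obtain ⟨x, hx⟩ := cube_nonempty p
  have hx' := h1.1 hx
  have h3 : dcell p.1 x = p.2 := hx
  have h4 : dcell q.1 x = q.2 := hx'
  rw [← h, h3] at h4
  exact Prod.ext h h4

lemma lec_of_mem {n : ℕ} {p q : Nd n} {x : En n} (hp : x ∈ cube p) (hq : x ∈ cube q)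
    (h : q.1 ≤ p.1) : lec p q := by
  refine ⟨?_, h⟩
  intro y hy
  have h1 : dcell p.1 y = dcell p.1 x := (show dcell p.1 y = p.2 from hy).trans
    (show dcell p.1 x = p.2 from hp).symm
  exact (dcell_nest h h1).trans hq

/-- maximal nodes of a set of nodes -/
def Mx {n : ℕ} (S : Set (Nd n)) : Set (Nd n) := {p | p ∈ S ∧ ∀ q ∈ S, lec p q → q = p}

lemma exists_Mx {n : ℕ} (S : Set (Nd n)) (p : Nd n) (hp : p ∈ S) : ∃ q ∈ Mx S, lec p q := by
  classical
  have hne : ∃ k, ∃ q ∈ S, lec p q ∧ q.1 = k := ⟨p.1, p, hp, lec_refl p, rfl⟩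
  obtain ⟨q, hq, hpq, hk⟩ := Nat.find_spec hne
  refine ⟨q, ⟨hq, fun r hr hqr => ?_⟩, hpq⟩
  have h1 : Nat.find hne ≤ r.1 := Nat.find_min' hne ⟨r, hr, lec_trans hpq hqr, rfl⟩
  exact (lec_eq hqr (by omega)).symm

/-- `S` covers `A` -/
def Cov {n : ℕ} (S : Set (Nd n)) (A : Set (En n)) : Prop := ∀ x ∈ A, ∃ p ∈ S, x ∈ cube p

lemma Cov.mono {n : ℕ} {S : Set (Nd n)} {A B : Set (En n)} (h : Cov S B) (hAB : A ⊆ B) :
    Cov S A := fun x hx => h x (hAB hx)

lemma Cov.Mx {n : ℕ} {S : Set (Nd n)} {A : Set (En n)} (h : Cov S A) :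
    Cov (Pool.Agent.W342.AG.Mx S) A := by
  intro x hx
  obtain ⟨p, hp, hxp⟩ := h x hx
  obtain ⟨q, hq, hpq⟩ := exists_Mx S p hp
  exact ⟨q, hq, hpq.1 hxp⟩

/-- cost of a set of nodes -/
noncomputable def cost {n : ℕ} (w : Nd n → ℝ≥0∞) (S : Set (Nd n)) : ℝ≥0∞ :=
  ∑' p, S.indicator w p

lemma cost_mono {n : ℕ} (w : Nd n → ℝ≥0∞) {S T : Set (Nd n)} (h : S ⊆ T) :
    cost w S ≤ cost w T :=
  ENNReal.tsum_le_tsum fun p => indicator_le_indicator_of_subset h (fun _ => zero_le) p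

/-- content -/
noncomputable def ph {n : ℕ} (w : Nd n → ℝ≥0∞) (A : Set (En n)) : ℝ≥0∞ :=
  ⨅ (S : Set (Nd n)) (_ : Cov S A), cost w S

lemma ph_le {n : ℕ} (w : Nd n → ℝ≥0∞) {A : Set (En n)} {S : Set (Nd n)} (h : Cov S A) :
    ph w A ≤ cost w S := iInf₂_le S h

lemma ph_mono {n : ℕ} (w : Nd n → ℝ≥0∞) {A B : Set (En n)} (h : A ⊆ B) : ph w A ≤ ph w B := by
  refine le_iInf₂ fun S hS => ph_le w (hS.mono h)

/-- the key inequality -/
lemma key_ineq {n : ℕ} (w : Nd n → ℝ≥0∞) (A B : Set (En n)) (hAB : A ⊆ B) (S T : Set (Nd n))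
    (hS : Cov S A) (hT : Cov T B) :
    cost w (Mx (S ∪ T)) + ph w A ≤ cost w S + cost w T := by
  classical
  set M := Mx (S ∪ T) with hM
  set R : Set (Nd n) := ((S ∪ T) \ M) ∪ (S ∩ T) with hR
  have hRA : Cov R A := by
    intro x hx
    obtain ⟨p, hp, hxp⟩ := hS x hx
    obtain ⟨q, hq, hxq⟩ := hT x (hAB hx)
    by_cases hpq : p = q
    · subst hpq
      exact ⟨p, Or.inr ⟨hp, hq⟩, hxp⟩
    · rcases le_total p.1 q.1 with h | h
      · refine ⟨q, Or.inl ⟨Or.inr hq, fun hqM => hpq ?_⟩, hxq⟩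
        exact hqM.2 p (Or.inl hp) (lec_of_mem hxq hxp h)
      · refine ⟨p, Or.inl ⟨Or.inl hp, fun hpM => hpq ?_⟩, hxp⟩
        exact (hpM.2 q (Or.inr hq) (lec_of_mem hxp hxq h)).symm
  calc cost w M + ph w A ≤ cost w M + cost w R := by gcongr; exact ph_le w hRA
    _ ≤ cost w S + cost w T := by
        unfold cost
        rw [← ENNReal.tsum_add, ← ENNReal.tsum_add]
        refine ENNReal.tsum_le_tsum fun p => ?_
        have hMS : p ∈ M → p ∈ S ∪ T := fun h => h.1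
        by_cases h1 : p ∈ S <;> by_cases h2 : p ∈ T <;> by_cases h3 : p ∈ M <;>
          simp_all [indicator]

/-- the increasing sets lemma -/
theorem increasing {n : ℕ} (w : Nd n → ℝ≥0∞) (A : ℕ → Set (En n)) (hA : Monotone A) :
    ph w (⋃ j, A j) ≤ ⨆ j, ph w (A j) := by
  classical
  set L := ⨆ j, ph w (A j) with hL
  by_cases hLt : L = ∞
  · rw [hLt]; exact le_top
  refine ENNReal.le_of_forall_pos_le_add fun ε hε _ => ?_
  obtain ⟨ε', hε'pos, hε'sum⟩ := ENNReal.exists_pos_sum_of_countable (ε := (ε : ℝ≥0∞))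
    (by exact_mod_cast hε.ne') ℕ
  have hphL : ∀ j, ph w (A j) ≤ L := fun j => le_iSup (fun j => ph w (A j)) j
  have hphT : ∀ j, ph w (A j) ≠ ∞ := fun j => ne_top_of_le_ne_top hLt (hphL j)
  have hC : ∀ j, ∃ C : Set (Nd n), Cov C (A j) ∧ cost w C ≤ ph w (A j) + ε' j := by
    intro j
    have h1 : ph w (A j) < ph w (A j) + ε' j := by
      refine ENNReal.lt_add_right (hphT j) ?_
      exact_mod_cast (hε'pos j).ne'
    conv_lhs at h1 => unfold ph
    obtain ⟨C, hC⟩ := iInf_lt_iff.1 h1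
    obtain ⟨hC1, hC2⟩ := iInf_lt_iff.1 hC
    exact ⟨C, hC1, hC2.le⟩
  choose C hCc hCw using hC
  let M : ℕ → Set (Nd n) := fun j => Nat.rec (Mx (C 0)) (fun j M => Mx (M ∪ C (j + 1))) j
  have hM0 : M 0 = Mx (C 0) := rfl
  have hMs : ∀ j, M (j + 1) = Mx (M j ∪ C (j + 1)) := fun j => rfl
  have hMc : ∀ j, Cov (M j) (A j) := by
    intro j
    induction j with
    | zero => rw [hM0]; exact (hCc 0).Mx
    | succ j ih =>
      rw [hMs]
      refine Cov.Mx ?_
      intro x hx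
      obtain ⟨p, hp, hxp⟩ := hCc (j + 1) x hx
      exact ⟨p, Or.inr hp, hxp⟩
  have hMsub : ∀ j, M j ⊆ ⋃ k, C k := by
    intro j
    induction j with
    | zero => rw [hM0]; intro p hp; exact mem_iUnion.2 ⟨0, hp.1⟩
    | succ j ih =>
      rw [hMs]; intro p hp
      rcases hp.1 with h | h
      · exact ih h
      · exact mem_iUnion.2 ⟨j + 1, h⟩
  have hMw : ∀ j, cost w (M j) ≤ ph w (A j) + ∑ k ∈ Finset.range (j + 1), (ε' k : ℝ≥0∞) := by
    intro j
    induction j with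
    | zero =>
      rw [hM0]
      refine (cost_mono w (fun p hp => hp.1)).trans ((hCw 0).trans ?_)
      simp
    | succ j ih =>
      have h1 := key_ineq w (A j) (A (j + 1)) (hA (Nat.le_succ j)) (M j) (C (j + 1)) (hMc j)
        (hCc (j + 1))
      rw [← hMs] at h1
      have h2 : cost w (M (j + 1)) + ph w (A j) ≤
          (ph w (A (j + 1)) + ∑ k ∈ Finset.range (j + 1 + 1), (ε' k : ℝ≥0∞)) + ph w (A j) := by
        refine h1.trans ((add_le_add ih (hCw (j + 1))).trans (le_of_eq ?_))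
        rw [Finset.sum_range_succ _ (j + 1)]
        ring
      exact (ENNReal.add_le_add_iff_right (hphT j)).1 h2
  set D : Set (Nd n) := Mx (⋃ k, C k) with hD
  have hDM : ∀ p ∈ D, ∃ j₀, ∀ j ≥ j₀, p ∈ M j := by
    intro p hp
    obtain ⟨k, hk⟩ := mem_iUnion.1 hp.1
    have hmem : p ∈ M k := by
      cases k with
      | zero =>
        rw [hM0]
        exact ⟨hk, fun q hq hpq => hp.2 q (mem_iUnion.2 ⟨0, hq⟩) hpq⟩
      | succ k =>
        rw [hMs]
        refine ⟨Or.inr hk, fun q hq hpq => hp.2 q ?_ hpq⟩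
        rcases hq with h | h
        · exact hMsub k h
        · exact mem_iUnion.2 ⟨k + 1, h⟩
    refine ⟨k, fun j hj => ?_⟩
    induction j, hj using Nat.le_induction with
    | base => exact hmem
    | succ j _ ih =>
      rw [hMs]
      refine ⟨Or.inl ih, fun q hq hpq => hp.2 q ?_ hpq⟩
      rcases hq with h | h
      · exact hMsub j h
      · exact mem_iUnion.2 ⟨j + 1, h⟩
  have hDc : Cov D (⋃ j, A j) := by
    refine Cov.Mx ?_
    intro x hx
    obtain ⟨j, hj⟩ := mem_iUnion.1 hx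
    obtain ⟨p, hp, hxp⟩ := hCc j x hj
    exact ⟨p, mem_iUnion.2 ⟨j, hp⟩, hxp⟩
  refine (ph_le w hDc).trans ?_
  unfold cost
  rw [ENNReal.tsum_eq_iSup_sum]
  refine iSup_le fun F => ?_
  have hev : ∀ᶠ j in atTop, ∀ p ∈ F, p ∈ D → p ∈ M j := by
    rw [eventually_all_finset]
    intro p _
    by_cases hp : p ∈ D
    · obtain ⟨j₀, hj₀⟩ := hDM p hp
      filter_upwards [eventually_ge_atTop j₀] with j hj _
      exact hj₀ j hj
    · exact Eventually.of_forall fun j h => absurd h hp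
  obtain ⟨j, hj⟩ := hev.exists
  calc ∑ p ∈ F, D.indicator w p ≤ ∑ p ∈ F, (M j).indicator w p := by
        refine Finset.sum_le_sum fun p hp => ?_
        by_cases hpD : p ∈ D
        · rw [indicator_of_mem hpD, indicator_of_mem (hj p hp hpD)]
        · rw [indicator_of_notMem hpD]; exact zero_le
    _ ≤ cost w (M j) := ENNReal.sum_le_tsum F
    _ ≤ ph w (A j) + ∑ k ∈ Finset.range (j + 1), (ε' k : ℝ≥0∞) := hMw j
    _ ≤ L + ε := by
        gcongr
        · exact hphL j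
        · exact (ENNReal.sum_le_tsum _).trans hε'sum.le

end Pool.Agent.W342.AG
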