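import Pool.Agent.W778.AG.Stmts

/-!
The correlation inequality for two balls (Cauchy-Schwarz); used for the problem MP_937c79_an.
-/

set_option autoImplicit false

open MeasureTheory Metric Set
open scoped ENNReal RealInnerProductSpace

namespace Pool.Agent.W342.AG
open Pool.Agent.W778.AG

lemma cs {X : Type*} [MeasurableSpace X] (ν : Measure X) (f : X → ℝ≥0∞) (hf : AEMeasurable f ν) :
    (∫⁻ x, f x ∂ν) ^ 2 ≤ ν univ * ∫⁻ x, f x ^ 2 ∂ν := by
  have h := ENNReal.lintegral_mul_le_Lp_mul_Lq ν (p := 2) (q := 2) Real.HolderConjugate.two_two hf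
    (aemeasurable_const (b := (1 : ℝ≥0∞)))
  simp only [Pi.mul_apply, mul_one, ENNReal.one_rpow, lintegral_const, one_mul] at h
  have h2 : (∫⁻ x, f x ∂ν) ^ 2 ≤ ((∫⁻ x, f x ^ (2 : ℝ) ∂ν) ^ (1 / (2 : ℝ)) *
      (ν univ) ^ (1 / (2 : ℝ))) ^ 2 := by
    gcongr
  refine h2.trans (le_of_eq ?_)
  rw [mul_pow, ← ENNReal.rpow_natCast, ← ENNReal.rpow_natCast, ← ENNReal.rpow_mul,
    ← ENNReal.rpow_mul]
  norm_num
  rw [mul_comm]

/-- indicator of the neighbourhood of the diagonal -/
noncomputable def gi {n : ℕ} (ρ : ℝ) (p : En n × En n) : ℝ≥0∞ :=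
  indicator {p : En n × En n | dist p.1 p.2 < ρ} 1 p

lemma gi_meas {n : ℕ} (ρ : ℝ) : Measurable (gi (n := n) ρ) := by
  refine measurable_one.indicator ?_
  exact measurableSet_lt (measurable_fst.dist measurable_snd) measurable_const

lemma gi_eq {n : ℕ} (ρ : ℝ) (z x : En n) : gi ρ (z, x) = indicator (ball z ρ) 1 x := by
  unfold gi indicator
  simp only [mem_ofPred_eq, mem_ball, Pi.one_apply]
  rw [dist_comm]

lemma gi_eq' {n : ℕ} (ρ : ℝ) (z x : En n) : gi ρ (z, x) = indicator (ball x ρ) 1 z := by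
  unfold gi indicator
  simp only [mem_ofPred_eq, mem_ball, Pi.one_apply]

lemma lint_ball {n : ℕ} (μ : Measure (En n)) (ρ : ℝ) (z : En n) :
    ∫⁻ x, gi ρ (z, x) ∂μ = μ (ball z ρ) := by
  simp only [gi_eq]
  rw [lintegral_indicator_one measurableSet_ball]

lemma core {n : ℕ} (μ : Measure (En n)) [IsFiniteMeasure μ] (A ρ : ℝ)
    (hμ : μ (closedBall 0 A)ᶜ = 0) :
    (μ univ * volume (ball (0 : En n) ρ)) ^ 2 ≤
      volume (ball (0 : En n) (A + ρ)) * ∫⁻ x, ∫⁻ y, volume (ball x ρ ∩ ball y ρ) ∂μ ∂μ := by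
  have hg := gi_meas (n := n) ρ
  have hfm : Measurable (fun z : En n => μ (ball z ρ)) := by
    have := hg.lintegral_prod_right' (ν := μ)
    simpa only [lint_ball] using this
  -- (1)
  have h1 : ∫⁻ z : En n, μ (ball z ρ) = μ univ * volume (ball (0 : En n) ρ) := by
    calc ∫⁻ z : En n, μ (ball z ρ) = ∫⁻ z : En n, ∫⁻ x, gi ρ (z, x) ∂μ := by
          simp only [lint_ball]
      _ = ∫⁻ x, (∫⁻ z : En n, gi ρ (z, x)) ∂μ := by
          rw [lintegral_lintegral_swap]
          exact hg.aemeasurable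
      _ = ∫⁻ x, volume (ball (0 : En n) ρ) ∂μ := by
          refine lintegral_congr fun x => ?_
          simp only [gi_eq']
          rw [lintegral_indicator_one measurableSet_ball]
          exact Measure.addHaar_ball_center volume x ρ
      _ = _ := by rw [lintegral_const, mul_comm]
  -- (2)
  have h2 : ∫⁻ z : En n, μ (ball z ρ) = ∫⁻ z in ball (0 : En n) (A + ρ), μ (ball z ρ) := by
    symm
    rw [← lintegral_indicator measurableSet_ball]
    refine lintegral_congr fun z => ?_
    by_cases hz : z ∈ ball (0 : En n) (A + ρ)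
    · rw [indicator_of_mem hz]
    · rw [indicator_of_notMem hz]
      symm
      refine measure_mono_null ?_ hμ
      intro x hx hx2
      apply hz
      rw [mem_ball] at hx ⊢
      rw [mem_closedBall] at hx2
      calc dist z 0 ≤ dist z x + dist x 0 := dist_triangle _ _ _
        _ < A + ρ := by rw [dist_comm z x]; linarith
  -- (4)
  have h4 : ∫⁻ z : En n, μ (ball z ρ) ^ 2 =
      ∫⁻ x, ∫⁻ y, volume (ball x ρ ∩ ball y ρ) ∂μ ∂μ := by
    have hgg : Measurable (fun q : (En n × En n) × En n => gi ρ (q.1.1, q.1.2) * gi ρ (q.1.1, q.2)) :=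
      (hg.comp (by fun_prop)).mul (hg.comp (by fun_prop))
    calc ∫⁻ z : En n, μ (ball z ρ) ^ 2
        = ∫⁻ z : En n, ∫⁻ x, ∫⁻ y, gi ρ (z, x) * gi ρ (z, y) ∂μ ∂μ := by
          refine lintegral_congr fun z => ?_
          have hz : Measurable (fun y => gi ρ (z, y)) := hg.comp (by fun_prop)
          calc μ (ball z ρ) ^ 2 = (∫⁻ x, gi ρ (z, x) ∂μ) * (∫⁻ y, gi ρ (z, y) ∂μ) := by
                simp only [lint_ball, sq]
            _ = ∫⁻ x, gi ρ (z, x) * (∫⁻ y, gi ρ (z, y) ∂μ) ∂μ := by
                rw [lintegral_mul_const _ hz]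
            _ = _ := by
                refine lintegral_congr fun x => ?_
                rw [lintegral_const_mul _ hz]
      _ = ∫⁻ x, (∫⁻ z : En n, ∫⁻ y, gi ρ (z, x) * gi ρ (z, y) ∂μ) ∂μ := by
          rw [lintegral_lintegral_swap]
          exact (hgg.lintegral_prod_right' (ν := μ)).aemeasurable
      _ = ∫⁻ x, ∫⁻ y, (∫⁻ z : En n, gi ρ (z, x) * gi ρ (z, y)) ∂μ ∂μ := by
          refine lintegral_congr fun x => ?_
          rw [lintegral_lintegral_swap]
          have : Measurable (fun q : En n × En n => gi ρ (q.1, x) * gi ρ (q.1, q.2)) :=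
            (hg.comp (by fun_prop)).mul (hg.comp (by fun_prop))
          exact this.aemeasurable
      _ = _ := by
          refine lintegral_congr fun x => lintegral_congr fun y => ?_
          have : (fun z : En n => gi ρ (z, x) * gi ρ (z, y)) =
              indicator (ball x ρ ∩ ball y ρ) 1 := by
            funext z
            rw [gi_eq', gi_eq']
            simp only [indicator, mem_inter_iff, Pi.one_apply]
            by_cases h1 : z ∈ ball x ρ <;> by_cases h2 : z ∈ ball y ρ <;> simp [h1, h2]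
          rw [this, lintegral_indicator_one (measurableSet_ball.inter measurableSet_ball)]
  rw [← h1, h2]
  refine (cs _ _ hfm.aemeasurable).trans ?_
  rw [Measure.restrict_apply_univ, ← h4]
  gcongr
  exact Measure.restrict_le_self

end Pool.Agent.W342.AG
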