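import Pool.Agent.W778.AG.Stmts
import Pool.Agent.H744R2.Falc.FrostH

/-!
Families of projections: measure bounds and the consequence of the slicing lemma
(MP_937c79_an, AG-16, AG-17).
-/

set_option autoImplicit false

open MeasureTheory Metric Set Filter
open scoped ENNReal RealInnerProductSpace Topology

namespace Pool.Agent.W342.AG
open Pool.Agent.W778.AG

lemma row_bound {a : ℕ} (u : Fin a → ℝ) (j : Fin a) (hu : u j ≠ 0) (c δ : ℝ) (hδ : 0 ≤ δ) :
    volume {m : Fin a → ℝ | (∀ l, |m l| ≤ 1) ∧ |c - ∑ l, m l * u l| ≤ δ} ≤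
      ENNReal.ofReal (2 ^ a * (δ / |u j|)) := by
  classical
  set M : Matrix (Fin a) (Fin a) ℝ := Matrix.updateRow 1 j u with hM
  set f : (Fin a → ℝ) →ₗ[ℝ] (Fin a → ℝ) := Matrix.toLin' M with hf
  have hdet : LinearMap.det f = u j := by
    rw [hf, LinearMap.det_toLin', hM]
    have h1 : (Matrix.updateRow (1 : Matrix (Fin a) (Fin a) ℝ) j u).det =
        (Matrix.updateCol (1 : Matrix (Fin a) (Fin a) ℝ) j u).det := by
      rw [← Matrix.det_transpose, ← Matrix.updateCol_transpose, Matrix.transpose_one]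
    rw [h1, ← Matrix.cramer_apply, Matrix.cramer_one]
    rfl
  have hfl : ∀ m : Fin a → ℝ, ∀ l, l ≠ j → f m l = m l := by
    intro m l hl
    rw [hf, Matrix.toLin'_apply, hM, Matrix.mulVec, Matrix.updateRow_ne hl]
    simp [dotProduct, Matrix.one_apply]
  have hfj : ∀ m : Fin a → ℝ, f m j = ∑ l, m l * u l := by
    intro m
    rw [hf, Matrix.toLin'_apply, hM, Matrix.mulVec, Matrix.updateRow_self]
    simp [dotProduct, mul_comm]
  calc volume {m : Fin a → ℝ | (∀ l, |m l| ≤ 1) ∧ |c - ∑ l, m l * u l| ≤ δ}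
      ≤ volume (f ⁻¹' (pi univ fun l => if l = j then Icc (c - δ) (c + δ) else Icc (-1) 1)) := by
        refine measure_mono ?_
        rintro m ⟨h1, h2⟩ l _
        by_cases hl : l = j
        · simp only [hl, if_true]
          rw [hfj]
          rw [abs_le] at h2
          constructor <;> linarith
        · simp only [hl, if_false]
          rw [hfl m l hl]
          exact abs_le.1 (h1 l)
    _ = ENNReal.ofReal |(u j)⁻¹| * ∏ l : Fin a, ENNReal.ofReal (2 * if l = j then δ else 1) := by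
        rw [Measure.addHaar_preimage_linearMap volume (by rw [hdet]; exact hu), hdet,
          volume_pi_pi]
        congr 1
        refine Finset.prod_congr rfl fun l _ => ?_
        by_cases hl : l = j
        · simp only [hl, if_true, Real.volume_Icc]
          congr 1; ring
        · simp only [hl, if_false, Real.volume_Icc]
          congr 1; norm_num
    _ = _ := by
        rw [← ENNReal.ofReal_prod_of_nonneg (fun l _ => by split_ifs <;> positivity),
          ← ENNReal.ofReal_mul (abs_nonneg _), Finset.prod_mul_distrib]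
        congr 1
        rw [Finset.prod_const, Finset.card_univ, Fintype.card_fin, Finset.prod_ite_eq']
        simp only [Finset.mem_univ, if_true, abs_inv]
        field_simp

lemma mat_bound {a b : ℕ} (u : Fin a → ℝ) (v : Fin b → ℝ) (j : Fin a) (hu : u j ≠ 0) (δ : ℝ)
    (hδ : 0 ≤ δ) :
    volume {M : Fin b → Fin a → ℝ | (∀ i l, |M i l| ≤ 1) ∧ ∀ i, |v i - ∑ l, M i l * u l| ≤ δ} ≤
      ENNReal.ofReal ((2 ^ a * (δ / |u j|)) ^ b) := by
  calc volume {M : Fin b → Fin a → ℝ | (∀ i l, |M i l| ≤ 1) ∧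
        ∀ i, |v i - ∑ l, M i l * u l| ≤ δ}
      ≤ volume (pi univ fun i : Fin b => {m : Fin a → ℝ | (∀ l, |m l| ≤ 1) ∧
          |v i - ∑ l, m l * u l| ≤ δ}) := by
        refine measure_mono ?_
        rintro M ⟨h1, h2⟩ i _
        exact ⟨h1 i, h2 i⟩
    _ = ∏ i : Fin b, volume {m : Fin a → ℝ | (∀ l, |m l| ≤ 1) ∧
          |v i - ∑ l, m l * u l| ≤ δ} := volume_pi_pi _
    _ ≤ ∏ i : Fin b, ENNReal.ofReal (2 ^ a * (δ / |u j|)) :=
        Finset.prod_le_prod' fun i _ => row_bound u j hu (v i) δ hδ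
    _ = _ := by
        rw [Finset.prod_const, Finset.card_univ, Fintype.card_fin, ENNReal.ofReal_pow]
        positivity

lemma box_vol (a b : ℕ) :
    volume {M : Fin b → Fin a → ℝ | ∀ i l, |M i l| ≤ 1} = ENNReal.ofReal ((2 ^ a) ^ b) := by
  have h1 : {M : Fin b → Fin a → ℝ | ∀ i l, |M i l| ≤ 1} =
      pi univ fun _ : Fin b => pi univ fun _ : Fin a => Icc (-1 : ℝ) 1 := by
    ext M
    simp only [Set.mem_pi, mem_univ, true_implies, mem_Icc, abs_le, mem_ofPred_eq]
  rw [h1, volume_pi_pi]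
  simp only [volume_pi_pi, Real.volume_Icc, Finset.prod_const, Finset.card_univ, Fintype.card_fin]
  rw [← ENNReal.ofReal_pow (by norm_num), ← ENNReal.ofReal_pow (by norm_num)]
  norm_num

lemma fam_bound {a b : ℕ} (u : Fin a → ℝ) (v : Fin b → ℝ) (W δ : ℝ) (hW0 : 0 < W)
    (hW : W ≤ ∑ j, |u j| + ∑ i, |v i|) (hδ : 0 < δ) :
    volume {M : Fin b → Fin a → ℝ | (∀ i l, |M i l| ≤ 1) ∧ ∀ i, |v i - ∑ l, M i l * u l| ≤ δ} ≤
      ENNReal.ofReal ((2 ^ a * (4 * (a + 1) * (b + 1))) ^ b * (δ / W) ^ b) := by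
  by_cases hj : ∃ j, W / (4 * (a + 1) * (b + 1)) ≤ |u j|
  · obtain ⟨j, hj⟩ := hj
    have hpos : 0 < |u j| := lt_of_lt_of_le (by positivity) hj
    refine (mat_bound u v j (abs_pos.1 hpos) δ hδ.le).trans (ENNReal.ofReal_le_ofReal ?_)
    rw [← mul_pow, mul_assoc]
    gcongr
    rw [div_le_iff₀ hpos]
    calc δ = (4 * (a + 1) * (b + 1) * (δ / W)) * (W / (4 * (a + 1) * (b + 1))) := by
          field_simp
      _ ≤ _ := by gcongr
  · push Not at hj
    by_cases hemp : {M : Fin b → Fin a → ℝ | (∀ i l, |M i l| ≤ 1) ∧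
        ∀ i, |v i - ∑ l, M i l * u l| ≤ δ} = ∅
    · rw [hemp, measure_empty]; exact zero_le
    obtain ⟨M, hM1, hM2⟩ := nonempty_iff_ne_empty.2 hemp
    refine (measure_mono (fun M hM => hM.1)).trans ((box_vol a b).le.trans
      (ENNReal.ofReal_le_ofReal ?_))
    rw [← mul_pow, mul_assoc]
    have hsu : ∑ j, |u j| ≤ a * (W / (4 * (a + 1) * (b + 1))) := by
      calc ∑ j, |u j| ≤ ∑ j : Fin a, (W / (4 * (a + 1) * (b + 1))) :=
            Finset.sum_le_sum fun j _ => (hj j).le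
        _ = _ := by simp
    have hsu2 : a * (W / (4 * (a + 1) * (b + 1))) ≤ W / (4 * (b + 1)) := by
      rw [mul_div_assoc', div_le_div_iff₀ (by positivity) (by positivity)]
      have : (a : ℝ) ≤ a + 1 := by linarith
      have h2 : 0 ≤ W * (4 * (b + 1)) := by positivity
      nlinarith
    have hsv : W - W / (4 * (b + 1)) ≤ ∑ i, |v i| := by linarith
    have hsv2 : ∑ i, |v i| ≤ b * (δ + W / (4 * (b + 1))) := by
      calc ∑ i, |v i| ≤ ∑ i : Fin b, (δ + W / (4 * (b + 1))) := by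
            refine Finset.sum_le_sum fun i _ => ?_
            have h1 := hM2 i
            have h2 : |∑ l, M i l * u l| ≤ ∑ l, |u l| := by
              refine (Finset.abs_sum_le_sum_abs _ _).trans (Finset.sum_le_sum fun l _ => ?_)
              rw [abs_mul]
              exact mul_le_of_le_one_left (abs_nonneg _) (hM1 i l)
            have h3 : |v i| ≤ |v i - ∑ l, M i l * u l| + |∑ l, M i l * u l| := by
              calc |v i| = |(v i - ∑ l, M i l * u l) + ∑ l, M i l * u l| := by ring_nf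
                _ ≤ _ := abs_add_le _ _
            linarith
        _ = _ := by simp [mul_add]
    have hkey : 1 ≤ 4 * (a + 1) * (b + 1) * (δ / W) := by
      have h5 : W - W / (4 * (b + 1)) ≤ b * (δ + W / (4 * (b + 1))) := hsv.trans hsv2
      have h6 : W / (4 * (b + 1)) = W * (1 / (4 * (b + 1))) := by ring
      have hb : (0 : ℝ) ≤ b := Nat.cast_nonneg b
      have ha : (0 : ℝ) ≤ a := Nat.cast_nonneg a
      have h7 : (b + 1) * (W / (4 * (b + 1))) = W / 4 := by field_simp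
      have h8 : 3 / 4 * W ≤ b * δ := by nlinarith
      rw [← div_le_iff₀' (by positivity), le_div_iff₀ hW0, div_mul_eq_mul_div, one_mul,
        div_le_iff₀ (by positivity)]
      nlinarith [mul_nonneg ha hb, mul_nonneg (mul_nonneg ha hb) hδ.le, mul_nonneg ha hδ.le,
        mul_nonneg hb hδ.le]
    have h2 : (0 : ℝ) < 2 ^ a := by positivity
    calc ((2 : ℝ) ^ a) ^ b = (2 ^ a * 1) ^ b := by rw [mul_one]
      _ ≤ _ := by gcongr

lemma slice_ae (hS : S_SLICE) {n m : ℕ} {Ω : Type} [MeasurableSpace Ω] (P : Measure Ω) [SFinite P]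
    (p : Ω → En n →L[ℝ] En m) (C C' s : ℝ) (ν : Measure (En n)) [IsFiniteMeasure ν]
    (K : Set (En n)) (hpm : Measurable (fun z : Ω × En n => p z.1 z.2))
    (hb : ∀ w : En n, w ≠ 0 → ∀ δ : ℝ, 0 < δ →
      P {o | ‖p o w‖ ≤ δ} ≤ ENNReal.ofReal (C * (δ / ‖w‖) ^ m))
    (hK : IsCompact K) (hνK : ν Kᶜ = 0) (hms : (m : ℝ) < s) (hC : 0 < C) (hC' : 0 < C')
    (hgr : ∀ x, ∀ r : ℝ, 0 < r → ν (closedBall x r) ≤ ENNReal.ofReal (C' * r ^ s)) :
    ∀ᵐ o ∂P, ∀ᵐ y ∂ν, ∃ x ∈ K, x ≠ y ∧ p o x = p o y := by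
  filter_upwards [hS n m Ω _ P p C C' s ν K inferInstance hpm hb inferInstance hK hνK hms hC hC' hgr]
    with o ho
  set A : Set (En n) := ⋃ j : ℕ, Prod.snd '' {z : En n × En n | z ∈ K ×ˢ K ∧
    p o z.1 = p o z.2 ∧ 1 / ((j : ℝ) + 1) ≤ ‖z.1 - z.2‖} with hA
  have hAm : MeasurableSet A := by
    refine MeasurableSet.iUnion fun j => ?_
    refine IsCompact.measurableSet ?_
    refine IsCompact.image ?_ continuous_snd
    refine (hK.prod hK).inter_right (IsClosed.inter ?_ ?_)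
    · exact isClosed_eq (f := fun z : En n × En n => p o z.1) (g := fun z => p o z.2)
        (by fun_prop) (by fun_prop)
    · exact isClosed_le (g := fun z : En n × En n => ‖z.1 - z.2‖) continuous_const (by fun_prop)
  have hAx : ∀ y ∈ A, ∃ x ∈ K, x ≠ y ∧ p o x = p o y := by
    intro y hy
    obtain ⟨j, hj⟩ := mem_iUnion.1 hy
    obtain ⟨⟨x, y'⟩, ⟨h1, h2, h3⟩, rfl⟩ := hj
    refine ⟨x, h1.1, ?_, h2⟩
    intro hxy
    have h4 : 1 / ((j : ℝ) + 1) ≤ ‖x - y'‖ := h3
    rw [show x = y' from hxy, sub_self, norm_zero] at h4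
    have : 0 < 1 / ((j : ℝ) + 1) := by positivity
    linarith
  have hL : ν (K \ A) = 0 := by
    refine ho _ (hK.measurableSet.diff hAm) ?_
    intro y hy y' hy' heq
    by_contra hne
    apply hy'.2
    have hpos : 0 < ‖y - y'‖ := norm_pos_iff.2 (sub_ne_zero.2 hne)
    obtain ⟨j, hj⟩ := exists_nat_one_div_lt hpos
    exact mem_iUnion.2 ⟨j, (y, y'), ⟨⟨hy.1, hy'.1⟩, heq, hj.le⟩, rfl⟩
  rw [ae_iff]
  refine measure_mono_null ?_ (measure_union_null hL hνK)
  intro y hy
  by_cases hyK : y ∈ K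
  · left
    exact ⟨hyK, fun hyA => hy (hAx y hyA)⟩
  · right; exact hyK

end Pool.Agent.W342.AG
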